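import Pool.Agent.Lib.MP_364e81_gt.Bfun
import Pool.Agent.Lib.MP_364e81_gt.Geometry

set_option autoImplicit false

/-!
The factorisation `B(z, w) = S₁(z) T₁(w) + S₂(z) T₂(w)` and the resulting spinors.
-/

namespace Pool.Agent.Lib.MP_364e81_gt

open Complex MeasureTheory Filter Topology Set ComplexConjugate

noncomputable section

/-- Solutions of `g'' = 2 w g' - 2 ν g`. -/
structure IsSolW (ν : ℂ) (g g1 : ℂ → ℂ) : Prop where
  d0 : ∀ w, HasDerivAt g (g1 w) w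
  d1 : ∀ w, HasDerivAt g1 (2 * w * g1 w - 2 * ν * g w) w

/-- Solutions of `f'' = - 2 z f' + 2 ν f`. -/
structure IsSolZ (ν : ℂ) (f f1 : ℂ → ℂ) : Prop where
  d0 : ∀ z, HasDerivAt f (f1 z) z
  d1 : ∀ z, HasDerivAt f1 (-2 * z * f1 z + 2 * ν * f z) z

theorem isSolW_B {ν : ℂ} (h0 : 0 < ν.re) (h1 : ν.re < 1) (z : ℂ) :
    IsSolW ν (fun w => B ν z w) (fun w => Bw ν z w) where
  d0 w := hasDerivAt_B h0 h1 z w
  d1 w := by
    rw [← B_ode h0 h1]
    exact hasDerivAt_Bw h0 h1 z w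

/-- The `z`-derivative of `B`. -/
def Bz (ν z w : ℂ) : ℂ := I * Bw ν (-I * w) (I * z)

theorem isSolZ_B {ν : ℂ} (h0 : 0 < ν.re) (h1 : ν.re < 1) (w : ℂ) :
    IsSolZ ν (fun z => B ν z w) (fun z => Bz ν z w) where
  d0 z := by
    have h2 := (isSolW_B h0 h1 (-I * w)).d0 (I * z)
    have h3 : HasDerivAt (fun z => I * z) I z := by
      simpa using (hasDerivAt_id z).const_mul I
    have h4 := h2.comp z h3
    have h5 : (fun z => B ν z w) = (fun w' => B ν (-I * w) w') ∘ fun z => I * z := by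
      funext z
      exact (B_rot ν z w).symm
    rw [h5]
    refine h4.congr_deriv ?_
    unfold Bz
    ring
  d1 z := by
    have h2 := (isSolW_B h0 h1 (-I * w)).d1 (I * z)
    have h3 : HasDerivAt (fun z => I * z) I z := by
      simpa using (hasDerivAt_id z).const_mul I
    have h4 := (h2.comp z h3).const_mul I
    refine h4.congr_deriv ?_
    simp only [B_rot]
    unfold Bz
    linear_combination (2 * z * I * Bw ν (-I * w) (I * z) - 2 * ν * B ν z w) * I_sq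

theorem IsSolW.wronskian {ν : ℂ} {f f1 g g1 : ℂ → ℂ} (hf : IsSolW ν f f1) (hg : IsSolW ν g g1)
    (w : ℂ) : f w * g1 w - f1 w * g w = exp (w ^ 2) * (f 0 * g1 0 - f1 0 * g 0) := by
  have h : ∀ w, HasDerivAt (fun w => (f w * g1 w - f1 w * g w) * exp (-w ^ 2)) 0 w := by
    intro w
    have h1 := ((hf.d0 w).mul (hg.d1 w)).sub ((hf.d1 w).mul (hg.d0 w))
    have h2 : HasDerivAt (fun w : ℂ => exp (-w ^ 2)) (exp (-w ^ 2) * (-(2 * w))) w := by
      have h3 : HasDerivAt (fun w : ℂ => -w ^ 2) (-(2 * w)) w := by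
        refine (hasDerivAt_pow 2 w).neg.congr_deriv ?_
        norm_num
      exact h3.cexp
    have h3 := h1.mul h2
    refine h3.congr_deriv ?_
    simp only [Pi.sub_apply, Pi.mul_apply]
    ring
  have h2 := is_const_of_deriv_eq_zero (fun w => (h w).differentiableAt)
    (fun w => (h w).deriv) w 0
  simp only [ne_eq, OfNat.ofNat_ne_zero, not_false_eq_true, zero_pow, neg_zero, exp_zero,
    mul_one] at h2
  rw [← h2]
  have h3 : exp (w ^ 2) * exp (-w ^ 2) = 1 := by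
    rw [← exp_add]
    simp
  linear_combination -(f w * g1 w - f1 w * g w) * h3

/-- Solutions are determined by initial values. -/
theorem IsSolW.eq {ν : ℂ} {f f1 p p1 q q1 : ℂ → ℂ} (hf : IsSolW ν f f1) (hp : IsSolW ν p p1)
    (hq : IsSolW ν q q1) (p0 : p 0 = 1) (p10 : p1 0 = 0) (q0 : q 0 = 0) (q10 : q1 0 = 1)
    (w : ℂ) : f w = f 0 * p w + f1 0 * q w := by
  have h1 := hp.wronskian hq w
  have h2 := hf.wronskian hp w
  have h3 := hf.wronskian hq w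
  rw [p0, q10, p10, q0] at h1
  rw [p0, p10] at h2
  rw [q0, q10] at h3
  have he := exp_ne_zero (w ^ 2)
  apply mul_left_cancel₀ he
  linear_combination -f w * h1 + p w * h3 - q w * h2

theorem IsSolW.const_mul {ν : ℂ} {f f1 : ℂ → ℂ} (hf : IsSolW ν f f1) (c : ℂ) :
    IsSolW ν (fun w => c * f w) (fun w => c * f1 w) where
  d0 w := (hf.d0 w).const_mul c
  d1 w := by
    refine ((hf.d1 w).const_mul c).congr_deriv ?_
    ring

theorem IsSolW.sub {ν : ℂ} {f f1 g g1 : ℂ → ℂ} (hf : IsSolW ν f f1) (hg : IsSolW ν g g1) :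
    IsSolW ν (fun w => f w - g w) (fun w => f1 w - g1 w) where
  d0 w := (hf.d0 w).sub (hg.d0 w)
  d1 w := by
    refine ((hf.d1 w).sub (hg.d1 w)).congr_deriv ?_
    ring

theorem IsSolZ.const_mul {ν : ℂ} {f f1 : ℂ → ℂ} (hf : IsSolZ ν f f1) (c : ℂ) :
    IsSolZ ν (fun w => c * f w) (fun w => c * f1 w) where
  d0 w := (hf.d0 w).const_mul c
  d1 w := by
    refine ((hf.d1 w).const_mul c).congr_deriv ?_
    ring

theorem IsSolZ.sub {ν : ℂ} {f f1 g g1 : ℂ → ℂ} (hf : IsSolZ ν f f1) (hg : IsSolZ ν g g1) :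
    IsSolZ ν (fun w => f w - g w) (fun w => f1 w - g1 w) where
  d0 w := (hf.d0 w).sub (hg.d0 w)
  d1 w := by
    refine ((hf.d1 w).sub (hg.d1 w)).congr_deriv ?_
    ring

theorem Bw_zero_zero (ν : ℂ) : Bw ν 0 0 = 0 := by
  unfold Bw
  simp [qq]

theorem Bw_neg_zero (ν z : ℂ) : Bw ν (-z) 0 = -Bw ν z 0 := by
  unfold Bw
  rw [← integral_neg]
  refine setIntegral_congr_fun measurableSet_Ioi fun v _ => ?_
  simp only [gg, qq, ph]
  ring_nf

/-- The rank two factorisation. -/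
theorem rank_two {ν : ℂ} (h0 : 0 < ν.re) (h1 : ν.re < 1) (hB : B ν 0 0 ≠ 0)
    (hBw : Bw ν 1 0 ≠ 0) :
    ∃ S1 S1' S2 S2' T1 T1' T2 T2' : ℂ → ℂ, IsSolZ ν S1 S1' ∧ IsSolZ ν S2 S2' ∧
      IsSolW ν T1 T1' ∧ IsSolW ν T2 T2' ∧ ∀ z w, B ν z w = S1 z * T1 w + S2 z * T2 w := by
  have p1 : IsSolW ν (fun w => (B ν 0 0)⁻¹ * B ν 0 w) (fun w => (B ν 0 0)⁻¹ * Bw ν 0 w) :=
    (isSolW_B h0 h1 0).const_mul _
  have p2 : IsSolW ν (fun w => (2 * Bw ν 1 0)⁻¹ * (B ν 1 w - B ν (-1) w))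
      (fun w => (2 * Bw ν 1 0)⁻¹ * (Bw ν 1 w - Bw ν (-1) w)) :=
    ((isSolW_B h0 h1 1).sub (isSolW_B h0 h1 (-1))).const_mul _
  have q1 : (B ν 0 0)⁻¹ * B ν 0 0 = 1 := inv_mul_cancel₀ hB
  have q2 : (B ν 0 0)⁻¹ * Bw ν 0 0 = 0 := by rw [Bw_zero_zero, mul_zero]
  have q3 : (2 * Bw ν 1 0)⁻¹ * (B ν 1 0 - B ν (-1) 0) = 0 := by
    have := B_neg ν 1 0
    rw [neg_zero] at this
    rw [this, sub_self, mul_zero]
  have q4 : (2 * Bw ν 1 0)⁻¹ * (Bw ν 1 0 - Bw ν (-1) 0) = 1 := by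
    rw [Bw_neg_zero, sub_neg_eq_add, ← two_mul]
    exact inv_mul_cancel₀ (mul_ne_zero two_ne_zero hBw)
  have key : ∀ z w, B ν z w = B ν z 0 * ((B ν 0 0)⁻¹ * B ν 0 w) +
      Bw ν z 0 * ((2 * Bw ν 1 0)⁻¹ * (B ν 1 w - B ν (-1) w)) := fun z w =>
    (isSolW_B h0 h1 z).eq p1 p2 q1 q2 q3 q4 w
  -- a point where the second solution does not vanish
  obtain ⟨w₁, hw₁⟩ : ∃ w, (2 * Bw ν 1 0)⁻¹ * (B ν 1 w - B ν (-1) w) ≠ 0 := by
    by_contra hcon
    push Not at hcon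
    have h2 := p2.d0 0
    rw [q4] at h2
    have h3 : HasDerivAt (fun w => (2 * Bw ν 1 0)⁻¹ * (B ν 1 w - B ν (-1) w)) 0 0 := by
      rw [show (fun w => (2 * Bw ν 1 0)⁻¹ * (B ν 1 w - B ν (-1) w)) = fun _ => 0 from
        funext hcon]
      exact hasDerivAt_const 0 (0 : ℂ)
    exact one_ne_zero (h2.unique h3)
  set c := (2 * Bw ν 1 0)⁻¹ * (B ν 1 w₁ - B ν (-1) w₁) with hc
  set d := (B ν 0 0)⁻¹ * B ν 0 w₁ with hd
  have p3 : IsSolZ ν (fun z => c⁻¹ * (B ν z w₁ - d * B ν z 0))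
      (fun z => c⁻¹ * (Bz ν z w₁ - d * Bz ν z 0)) :=
    ((isSolZ_B h0 h1 w₁).sub ((isSolZ_B h0 h1 0).const_mul d)).const_mul _
  refine ⟨_, _, _, _, _, _, _, _, isSolZ_B h0 h1 0, p3, p1, p2, fun z w => ?_⟩
  have h4 : c⁻¹ * (B ν z w₁ - d * B ν z 0) = Bw ν z 0 := by
    rw [key z w₁, ← hc, ← hd]
    field_simp
    ring
  rw [h4]
  exact key z w

end

end Pool.Agent.Lib.MP_364e81_gt
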