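import Pool.Agent.Lib.MP_364e81_gt.Lower
import Pool.Agent.Lib.MP_364e81_gt.RankTwo

set_option autoImplicit false

/-!
Size and asymptotics of `B(z, z̄)`.
-/

namespace Pool.Agent.Lib.MP_364e81_gt

open Complex MeasureTheory Filter Topology Set ComplexConjugate

noncomputable section

/-! ### Scaling -/

theorem scale_wt {ν : ℂ} {R : ℝ} (hR : 0 < R) (G : ℝ → ℂ) :
    ∫ v in Ioi (0 : ℝ), wt ν v * G v =
      (R : ℂ) ^ ν * ∫ y in Ioi (0 : ℝ), wt ν y * G (y / R) := by
  have hR0 : (R : ℂ) ≠ 0 := ofReal_ne_zero.mpr hR.ne'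
  have h := integral_comp_mul_left_Ioi (fun y => wt ν y * G (y / R)) 0 hR
  rw [mul_zero] at h
  have h1 : ∫ x in Ioi (0 : ℝ), wt ν (R * x) * G (R * x / R) =
      (R : ℂ) ^ (-ν - 1) * ∫ v in Ioi (0 : ℝ), wt ν v * G v := by
    rw [← integral_const_mul]
    refine setIntegral_congr_fun measurableSet_Ioi fun x hx => ?_
    have hx' : (0 : ℝ) < x := hx
    have h2 : R * x / R = x := by field_simp
    have h3 : wt ν (R * x) = (R : ℂ) ^ (-ν - 1) * wt ν x := by
      unfold wt
      rw [ofReal_mul, mul_cpow_ofReal_nonneg hR.le hx'.le]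
    rw [h2, h3]
    ring
  rw [h1] at h
  have h4 : (R : ℂ) ^ ν * (R : ℂ) * (R : ℂ) ^ (-ν - 1) = 1 := by
    have h5 : (R : ℂ) ^ (ν + 1) = (R : ℂ) ^ ν * R := by
      rw [cpow_add _ _ hR0, cpow_one]
    rw [← h5, ← cpow_add _ _ hR0]
    ring_nf
    exact cpow_zero _
  have h6 : (R : ℂ) * (R : ℂ)⁻¹ = 1 := mul_inv_cancel₀ hR0
  calc ∫ v in Ioi (0 : ℝ), wt ν v * G v =
      ((R : ℂ) ^ ν * (R : ℂ) * (R : ℂ) ^ (-ν - 1)) * ∫ v in Ioi (0 : ℝ), wt ν v * G v := by
        rw [h4, one_mul]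
    _ = (R : ℂ) ^ ν * (R : ℂ) * ((R : ℂ) ^ (-ν - 1) * ∫ v in Ioi (0 : ℝ), wt ν v * G v) := by
        ring
    _ = (R : ℂ) ^ ν * (R : ℂ) * (R⁻¹ • ∫ y in Ioi (0 : ℝ), wt ν y * G (y / R)) := by rw [h]
    _ = (R : ℂ) ^ ν * ((R : ℂ) * (R : ℂ)⁻¹) * ∫ y in Ioi (0 : ℝ), wt ν y * G (y / R) := by
        rw [real_smul, ofReal_inv]
        ring
    _ = _ := by rw [h6, mul_one]

/-! ### The kernel on the diagonal `w = z̄` -/

/-- `1 - |g|` -/
def pp (v : ℝ) (z : ℂ) : ℝ := 1 - rr v * Real.exp (-(cc v * normSq z))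

theorem gg_conj (v : ℝ) (z : ℂ) : gg v z (conj z) =
    ((rr v * Real.exp (-(cc v * normSq z)) : ℝ) : ℂ) *
      (Real.cos (dd v * (2 * (z ^ 2).im)) - Real.sin (dd v * (2 * (z ^ 2).im)) * I) := by
  have h1 : -ph v z (conj z) = ((-(cc v * normSq z) : ℝ) : ℂ) +
      ((-(dd v * (2 * (z ^ 2).im)) : ℝ) : ℂ) * I := by
    have h2 : z ^ 2 - conj z ^ 2 = ((2 * (z ^ 2).im : ℝ) : ℂ) * I := by
      rw [← map_pow, sub_conj]
    unfold ph
    rw [mul_conj, h2]
    push_cast
    ring
  unfold gg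
  rw [h1, exp_add, exp_mul_I, ← ofReal_exp, ← ofReal_cos, ← ofReal_sin, Real.cos_neg,
    Real.sin_neg]
  push_cast
  ring

theorem xexp_le {X : ℝ} : X * Real.exp (-X) ≤ 1 - Real.exp (-X) := by
  have h1 := Real.add_one_le_exp X
  have h2 : Real.exp X * Real.exp (-X) = 1 := by
    rw [← Real.exp_add]
    simp
  have h3 := Real.exp_pos (-X)
  nlinarith

theorem rr_mul_le (v : ℝ) : rr v * v ≤ 1 := by
  unfold rr
  rw [inv_mul_le_iff₀ (Real.sqrt_pos.mpr (one_add_sq_pos v)), mul_one]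
  apply Real.le_sqrt_of_sq_le
  linarith

theorem two_dd (v : ℝ) : 2 * dd v = v * cc v := by
  unfold dd cc
  ring

theorem kernel_bounds {v : ℝ} (hv : 0 < v) (z : ℂ) :
    0 ≤ pp v z ∧ pp v z ≤ (1 - gg v z (conj z)).re ∧
      (1 - gg v z (conj z)).re ≤ 2 * pp v z ∧ |(1 - gg v z (conj z)).im| ≤ pp v z := by
  set X := cc v * normSq z with hX
  set Y := dd v * (2 * (z ^ 2).im) with hY
  set g := rr v * Real.exp (-X) with hg
  have hX0 : 0 ≤ X := mul_nonneg (cc_nonneg hv) (normSq_nonneg z)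
  have hg0 : 0 ≤ g := mul_nonneg (rr_pos v).le (Real.exp_pos _).le
  have he : Real.exp (-X) ≤ 1 := by
    rw [Real.exp_le_one_iff]
    linarith
  have hg1 : g ≤ Real.exp (-X) := by
    have := mul_le_mul_of_nonneg_right (rr_le_one v) (Real.exp_pos (-X)).le
    rwa [one_mul] at this
  have hre : (1 - gg v z (conj z)).re = 1 - g * Real.cos Y := by
    rw [gg_conj]
    simp only [mul_re, sub_re, sub_im, mul_im, ofReal_re, ofReal_im, I_re, I_im, one_re]
    ring
  have him : (1 - gg v z (conj z)).im = g * Real.sin Y := by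
    rw [gg_conj]
    simp only [mul_re, sub_re, sub_im, mul_im, ofReal_re, ofReal_im, I_re, I_im, one_im]
    ring
  have hYX : |Y| ≤ v * X := by
    have h1 : |(z ^ 2).im| ≤ normSq z := by
      refine (abs_im_le_norm _).trans ?_
      rw [norm_pow, normSq_eq_norm_sq]
    have h2 : |Y| = (2 * dd v) * |(z ^ 2).im| := by
      rw [hY, abs_mul, abs_mul, abs_of_nonneg (dd_nonneg v), abs_of_nonneg (zero_le_two : (0 : ℝ) ≤ 2)]
      ring
    rw [h2, two_dd, hX, mul_assoc]
    have := cc_nonneg hv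
    gcongr
  have hgY : g * |Y| ≤ 1 - g := by
    have h1 : g * |Y| ≤ g * (v * X) := mul_le_mul_of_nonneg_left hYX hg0
    have h2 : g * (v * X) = (rr v * v) * (X * Real.exp (-X)) := by
      rw [hg]
      ring
    have h3 : (rr v * v) * (X * Real.exp (-X)) ≤ 1 * (X * Real.exp (-X)) :=
      mul_le_mul_of_nonneg_right (rr_mul_le v) (mul_nonneg hX0 (Real.exp_pos _).le)
    have h4 := @xexp_le X
    linarith
  have hp : pp v z = 1 - g := rfl
  rw [hre, him, hp]
  have hc1 := Real.cos_le_one Y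
  have hc2 := one_sub_cos_le Y
  refine ⟨by linarith, by nlinarith, ?_, ?_⟩
  · have := mul_le_mul_of_nonneg_left hc2 hg0
    nlinarith
  · rw [abs_mul, abs_of_nonneg hg0]
    exact (mul_le_mul_of_nonneg_left (abs_sin_le' Y) hg0).trans hgY

/-- The scaling radius. -/
def RR (z : ℂ) : ℝ := max 1 (normSq z)

theorem one_le_RR (z : ℂ) : 1 ≤ RR z := le_max_left _ _

theorem RR_pos (z : ℂ) : 0 < RR z := lt_of_lt_of_le one_pos (one_le_RR z)

theorem pp_le {y : ℝ} (hy : 0 < y) (z : ℂ) : pp (y / RR z) z ≤ 3 * min y 1 := by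
  have hR := RR_pos z
  have hv : 0 < y / RR z := div_pos hy hR
  set v := y / RR z with hvd
  have hvy : v ≤ y := div_le_self hy.le (one_le_RR z)
  have hg0 : 0 ≤ rr v * Real.exp (-(cc v * normSq z)) :=
    mul_nonneg (rr_pos v).le (Real.exp_pos _).le
  rw [mul_min_of_nonneg _ _ (by norm_num : (0 : ℝ) ≤ 3)]
  apply le_min
  · have h1 := one_sub_rr_le hv
    have h2 : min v 1 ≤ v := min_le_left _ _
    have h3 := Real.add_one_le_exp (-(cc v * normSq z))
    have h4 : cc v * normSq z ≤ 2 * y := by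
      have h5 : cc v ≤ 2 * v := (cc_le hv).trans (by linarith)
      have h6 : cc v * normSq z ≤ 2 * v * RR z :=
        mul_le_mul h5 (le_max_right _ _) (normSq_nonneg z) (by positivity)
      have h7 : 2 * v * RR z = 2 * y := by
        rw [hvd]
        field_simp
      linarith
    have h8 := mul_le_mul_of_nonneg_left h3 (rr_pos v).le
    have h9 : rr v * (cc v * normSq z) ≤ 1 * (2 * y) :=
      mul_le_mul (rr_le_one v) h4 (mul_nonneg (cc_nonneg hv) (normSq_nonneg z)) zero_le_one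
    unfold pp
    linarith
  · unfold pp
    linarith

theorem le_pp {y : ℝ} (hy : 0 < y) (hy1 : y ≤ 1) (z : ℂ) : y ^ 2 / 4 ≤ pp (y / RR z) z := by
  have hR := RR_pos z
  have hv : 0 < y / RR z := div_pos hy hR
  rcases le_total (normSq z) 1 with h | h
  · have h1 : RR z = 1 := max_eq_left h
    rw [h1, div_one]
    have h2 : rr y ≤ 1 - y ^ 2 / 4 := by
      have h3 : rr y ^ 2 ≤ (1 - y ^ 2 / 4) ^ 2 := by
        unfold rr
        rw [inv_pow, Real.sq_sqrt (one_add_sq_pos y).le, ← one_div,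
          div_le_iff₀ (one_add_sq_pos y)]
        have h4 : y ^ 2 ≤ 1 := by nlinarith
        have h5 : 0 ≤ y ^ 2 := sq_nonneg y
        nlinarith [mul_nonneg h5 h5, mul_nonneg h5 (mul_nonneg h5 h5)]
      have h6 : 0 ≤ 1 - y ^ 2 / 4 := by nlinarith
      exact (sq_le_sq₀ (rr_pos y).le h6).mp h3
    have h3 : Real.exp (-(cc y * normSq z)) ≤ 1 := by
      rw [Real.exp_le_one_iff]
      have := mul_nonneg (cc_nonneg hy) (normSq_nonneg z)
      linarith
    have h4 := mul_le_mul_of_nonneg_left h3 (rr_pos y).le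
    unfold pp
    linarith
  · have h1 : RR z = normSq z := max_eq_right h
    rw [h1]
    rw [h1] at hR hv
    set v := y / normSq z with hvd
    have hv1 : v ≤ 1 := by
      rw [hvd, div_le_one hR]
      linarith
    have h2 : y ≤ cc v * normSq z := by
      have h3 : y = v * normSq z := by
        rw [hvd]
        field_simp
      have h4 : v ≤ cc v := by
        unfold cc
        rw [le_div_iff₀ (one_add_sq_pos v)]
        nlinarith
      calc y = v * normSq z := h3
        _ ≤ cc v * normSq z := mul_le_mul_of_nonneg_right h4 (normSq_nonneg z)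
    have h5 : Real.exp (-(cc v * normSq z)) ≤ Real.exp (-y) := by
      rw [Real.exp_le_exp]
      linarith
    have h6 : Real.exp (-y) ≤ 1 - y / 2 := by
      have h7 := Real.add_one_le_exp y
      have h8 : Real.exp y * Real.exp (-y) = 1 := by
        rw [← Real.exp_add]
        simp
      have h9 := Real.exp_pos (-y)
      have h10 : (y + 1) * Real.exp (-y) ≤ 1 := by
        calc (y + 1) * Real.exp (-y) ≤ Real.exp y * Real.exp (-y) :=
              mul_le_mul_of_nonneg_right h7 h9.le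
          _ = 1 := h8
      have h11 : Real.exp (-y) ≤ 1 := by
        rw [Real.exp_le_one_iff]
        linarith
      have h12 : Real.exp (-y) ≤ 1 / (1 + y) := by
        rw [le_div_iff₀ (by linarith)]
        linarith
      have h13 : 1 / (1 + y) ≤ 1 - y / 2 := by
        rw [div_le_iff₀ (by linarith)]
        nlinarith
      linarith
    have h7 : rr v * Real.exp (-(cc v * normSq z)) ≤ 1 * (1 - y / 2) :=
      mul_le_mul (rr_le_one v) (h5.trans h6) (Real.exp_pos _).le zero_le_one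
    unfold pp
    nlinarith

theorem continuous_pp (z : ℂ) : Continuous fun v => pp v z := by
  unfold pp
  exact continuous_const.sub (continuous_rr.mul
    (Real.continuous_exp.comp (continuous_cc.mul continuous_const).neg))

theorem diag_lower (b : ℝ) (z : ℂ) : 1 / 5 - 9 * |b| * C1 ≤
    (∫ y in Ioi (0 : ℝ), wt (nu b) y * (1 - gg (y / RR z) z (conj z))).re := by
  have hd : Continuous fun y : ℝ => y / RR z := continuous_id.div_const _
  refine lower_bound (p := fun y => pp (y / RR z) z)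
    ((continuous_one_sub_gg z (conj z)).comp hd).continuousOn
    ((continuous_pp z).comp hd).continuousOn ?_ ?_ ?_ ?_ ?_ ?_
  · exact fun y hy => (kernel_bounds (div_pos hy (RR_pos z)) z).1
  · exact fun y hy => (kernel_bounds (div_pos hy (RR_pos z)) z).2.1
  · exact fun y hy => (kernel_bounds (div_pos hy (RR_pos z)) z).2.2.1
  · exact fun y hy => (kernel_bounds (div_pos hy (RR_pos z)) z).2.2.2
  · exact fun y hy => pp_le hy z
  · exact fun y hy hy1 => le_pp hy hy1 z

theorem B_diag (ν z : ℂ) : B ν z (conj z) =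
    (RR z : ℂ) ^ ν * ∫ y in Ioi (0 : ℝ), wt ν y * (1 - gg (y / RR z) z (conj z)) :=
  scale_wt (RR_pos z) fun v => 1 - gg v z (conj z)

theorem norm_B_diag {b : ℝ} (hb : 9 * |b| * C1 ≤ 1 / 10) (z : ℂ) :
    RR z ^ (3 / 4 : ℝ) / 10 ≤ ‖B (nu b) z (conj z)‖ := by
  rw [B_diag, norm_mul, norm_cpow_eq_rpow_re_of_pos (RR_pos z), nu_re]
  have h1 := diag_lower b z
  have h2 := Complex.re_le_norm (∫ y in Ioi (0 : ℝ), wt (nu b) y * (1 - gg (y / RR z) z (conj z)))
  have h3 : (1 : ℝ) / 10 ≤ ‖∫ y in Ioi (0 : ℝ), wt (nu b) y * (1 - gg (y / RR z) z (conj z))‖ := by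
    linarith
  have h4 := mul_le_mul_of_nonneg_left h3 (Real.rpow_nonneg (RR_pos z).le (3 / 4))
  linarith

theorem Bw_one_ne_zero {b : ℝ} (hb : 9 * |b| * C1 ≤ 1 / 10) : Bw (nu b) 1 0 ≠ 0 := by
  have hform : ∀ v : ℝ, qq v 1 0 * gg v 1 0 = ((cc v * (rr v * Real.exp (-dd v)) : ℝ) : ℂ) := by
    intro v
    unfold qq gg ph
    push_cast
    norm_num
  have h := lower_bound (b := b) (q := fun v => qq v 1 0 * gg v 1 0)
    (p := fun v => cc v * (rr v * Real.exp (-dd v))) (continuous_qq_gg 1 0).continuousOn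
    (continuous_cc.mul (continuous_rr.mul
      (Real.continuous_exp.comp continuous_dd.neg))).continuousOn ?_ ?_ ?_ ?_ ?_ ?_
  · intro h0
    unfold Bw at h0
    rw [h0, zero_re] at h
    linarith
  · intro y hy
    have := cc_nonneg hy
    have := (rr_pos y).le
    positivity
  · intro y _
    rw [hform, ofReal_re]
  · intro y hy
    rw [hform, ofReal_re]
    have := cc_nonneg hy
    have := (rr_pos y).le
    have : 0 ≤ cc y * (rr y * Real.exp (-dd y)) := by positivity
    linarith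
  · intro y hy
    rw [hform, ofReal_im, abs_zero]
    have := cc_nonneg hy
    have := (rr_pos y).le
    positivity
  · intro y hy
    have h1 := cc_le hy
    have h2 : rr y * Real.exp (-dd y) ≤ 1 * 1 := by
      refine mul_le_mul (rr_le_one y) ?_ (Real.exp_pos _).le zero_le_one
      rw [Real.exp_le_one_iff]
      linarith [dd_nonneg y]
    have h3 : 0 ≤ min y 1 := le_min hy.le zero_le_one
    have h4 : cc y * (rr y * Real.exp (-dd y)) ≤ 2 * min y 1 * (1 * 1) :=
      mul_le_mul h1 h2 (mul_nonneg (rr_pos y).le (Real.exp_pos _).le) (by positivity)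
    linarith
  · intro y hy hy1
    have h1 : y ≤ cc y := by
      unfold cc
      rw [le_div_iff₀ (one_add_sq_pos y)]
      nlinarith
    have h2 : 1 / 2 ≤ rr y := by
      unfold rr
      rw [one_div]
      refine inv_anti₀ (Real.sqrt_pos.mpr (one_add_sq_pos y)) ?_
      rw [Real.sqrt_le_left (by norm_num)]
      nlinarith
    have h3 : 1 / 2 ≤ Real.exp (-dd y) := by
      have h4 := Real.add_one_le_exp (-dd y)
      have h5 : dd y ≤ 1 / 2 := by
        unfold dd
        rw [div_le_iff₀ (one_add_sq_pos y)]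
        nlinarith
      linarith
    have h4 : 1 / 2 * (1 / 2) ≤ rr y * Real.exp (-dd y) :=
      mul_le_mul h2 h3 (by norm_num) (rr_pos y).le
    have h5 : y * (1 / 2 * (1 / 2)) ≤ cc y * (rr y * Real.exp (-dd y)) :=
      mul_le_mul h1 h4 (by norm_num) (cc_nonneg hy)
    nlinarith

end

end Pool.Agent.Lib.MP_364e81_gt
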