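import Pool.Agent.Lib.MP_364e81_gt.Kernel

set_option autoImplicit false

/-!
The function `B(z, w)`: derivatives, differential equations, symmetries.
-/

namespace Pool.Agent.Lib.MP_364e81_gt

open Complex MeasureTheory Filter Topology Set

noncomputable section

def B (ν z w : ℂ) : ℂ := ∫ v in Ioi (0 : ℝ), wt ν v * (1 - gg v z w)

def Bw (ν z w : ℂ) : ℂ := ∫ v in Ioi (0 : ℝ), wt ν v * (qq v z w * gg v z w)

def Bww (ν z w : ℂ) : ℂ :=
  ∫ v in Ioi (0 : ℝ), wt ν v * (-(2 * dd v + qq v z w ^ 2) * gg v z w)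

/-- A common bound. -/
def CC (R : ℝ) : ℝ := (3 + 4 * R + 16 * R ^ 2) * Real.exp (3 * R ^ 2)

theorem bounds {v : ℝ} (hv : 0 < v) {z w : ℂ} {R : ℝ} (hz : ‖z‖ ≤ R) (hw : ‖w‖ ≤ R) :
    ‖1 - gg v z w‖ ≤ CC R * min v 1 ∧ ‖qq v z w * gg v z w‖ ≤ CC R * min v 1 ∧
      ‖-(2 * dd v + qq v z w ^ 2) * gg v z w‖ ≤ CC R * min v 1 := by
  have hR : 0 ≤ R := (norm_nonneg z).trans hz
  have hm : 0 ≤ min v 1 := le_min hv.le zero_le_one
  have he : 1 ≤ Real.exp (3 * R ^ 2) := Real.one_le_exp (by positivity)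
  have he0 : 0 ≤ Real.exp (3 * R ^ 2) := by positivity
  obtain ⟨q1, q2⟩ := norm_qq_le hv hz hw
  have hg := norm_gg_le hv hz hw
  unfold CC
  refine ⟨?_, ?_, ?_⟩
  · refine (norm_one_sub_gg_le hv hz hw).trans ?_
    refine mul_le_mul_of_nonneg_right ?_ hm
    nlinarith [mul_nonneg hR he0, mul_nonneg (mul_nonneg hR hR) he0]
  · rw [norm_mul]
    have h1 := mul_le_mul q1 hg (norm_nonneg _) (by positivity)
    refine h1.trans ?_
    have h2 : 4 * R * min v 1 * Real.exp (3 * R ^ 2) =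
      (4 * R) * Real.exp (3 * R ^ 2) * min v 1 := by ring
    rw [h2]
    refine mul_le_mul_of_nonneg_right ?_ hm
    refine mul_le_mul_of_nonneg_right ?_ he0
    nlinarith
  · rw [norm_mul, norm_neg]
    have h3 : ‖2 * (dd v : ℂ) + qq v z w ^ 2‖ ≤ (2 + 12 * R ^ 2) * min v 1 := by
      refine (norm_add_le _ _).trans ?_
      rw [norm_mul, norm_real, Real.norm_of_nonneg (dd_nonneg v), norm_pow, Complex.norm_ofNat, sq]
      have h4 := dd_le hv
      have h5 := mul_le_mul q1 q2 (norm_nonneg _) (by positivity)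
      nlinarith
    have h1 := mul_le_mul h3 hg (norm_nonneg _) (by positivity)
    refine h1.trans ?_
    have h2 : (2 + 12 * R ^ 2) * min v 1 * Real.exp (3 * R ^ 2) =
      (2 + 12 * R ^ 2) * Real.exp (3 * R ^ 2) * min v 1 := by ring
    rw [h2]
    refine mul_le_mul_of_nonneg_right ?_ hm
    refine mul_le_mul_of_nonneg_right ?_ he0
    nlinarith

theorem radius {z w₀ w : ℂ} (hw : w ∈ Metric.ball w₀ 1) :
    ‖z‖ ≤ ‖z‖ + ‖w₀‖ + 1 ∧ ‖w‖ ≤ ‖z‖ + ‖w₀‖ + 1 := by
  have h0 := norm_nonneg z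
  have h1 := norm_nonneg w₀
  have h2 : ‖w‖ ≤ ‖w₀‖ + 1 := by
    have h3 : ‖w - w₀‖ < 1 := by simpa [dist_eq_norm] using hw
    have h4 : ‖w‖ ≤ ‖w₀‖ + ‖w - w₀‖ := by
      have := norm_add_le w₀ (w - w₀)
      rwa [add_sub_cancel] at this
    linarith
  constructor <;> linarith

theorem continuous_one_sub_gg (z w : ℂ) : Continuous fun v => 1 - gg v z w :=
  continuous_const.sub (continuous_gg z w)

theorem continuous_qq_gg (z w : ℂ) : Continuous fun v => qq v z w * gg v z w :=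
  (continuous_qq z w).mul (continuous_gg z w)

theorem continuous_third (z w : ℂ) :
    Continuous fun v : ℝ => -(2 * dd v + qq v z w ^ 2) * gg v z w :=
  (((continuous_const.mul (continuous_ofReal.comp continuous_dd)).add
    ((continuous_qq z w).pow 2)).neg).mul (continuous_gg z w)

theorem hasDerivAt_B {ν : ℂ} (h0 : 0 < ν.re) (h1 : ν.re < 1) (z w : ℂ) :
    HasDerivAt (fun w => B ν z w) (Bw ν z w) w := by
  refine hasDerivAt_wt h0 h1 (F := fun w v => 1 - gg v z w)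
    (F' := fun w v => qq v z w * gg v z w) (C := CC (‖z‖ + ‖w‖ + 1))
    (fun w => (continuous_one_sub_gg z w).continuousOn) (continuous_qq_gg z w).continuousOn
    (fun v hv => ?_) (fun w' hw' v hv => ?_) (fun w v _ => ?_)
  · obtain ⟨r1, r2⟩ := radius (z := z) (Metric.mem_ball_self one_pos : w ∈ Metric.ball w 1)
    exact (bounds hv r1 r2).1
  · obtain ⟨r1, r2⟩ := radius (z := z) hw'
    exact (bounds hv r1 r2).2.1
  · have h := (hasDerivAt_gg v z w).const_sub 1
    rw [neg_neg] at h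
    exact h

theorem hasDerivAt_Bw {ν : ℂ} (h0 : 0 < ν.re) (h1 : ν.re < 1) (z w : ℂ) :
    HasDerivAt (fun w => Bw ν z w) (Bww ν z w) w := by
  refine hasDerivAt_wt h0 h1 (F := fun w v => qq v z w * gg v z w)
    (F' := fun w v => -(2 * dd v + qq v z w ^ 2) * gg v z w) (C := CC (‖z‖ + ‖w‖ + 1))
    (fun w => (continuous_qq_gg z w).continuousOn) (continuous_third z w).continuousOn
    (fun v hv => ?_) (fun w' hw' v hv => ?_) (fun w v _ => ?_)
  · obtain ⟨r1, r2⟩ := radius (z := z) (Metric.mem_ball_self one_pos : w ∈ Metric.ball w 1)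
    exact (bounds hv r1 r2).2.1
  · obtain ⟨r1, r2⟩ := radius (z := z) hw'
    exact (bounds hv r1 r2).2.2
  · have h : HasDerivAt (fun w => qq v z w * gg v z w) _ w :=
      (hasDerivAt_qq v z w).mul (hasDerivAt_gg v z w)
    refine h.congr_deriv ?_
    ring

/-- The derivative in `v` of the kernel, times `v`. -/
def vG (v : ℝ) (z w : ℂ) : ℂ :=
  (dd v + cc v * (1 - 2 * dd v) * (z * w) + 2 * dd v * (1 - dd v) * (z ^ 2 - w ^ 2)) *
    gg v z w

/-- The derivative in `v` of the kernel. -/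
def dG (v : ℝ) (z w : ℂ) : ℂ :=
  (((v / (1 + v ^ 2) : ℝ) : ℂ) + ((2 * (1 - v ^ 2) / (1 + v ^ 2) ^ 2 : ℝ) : ℂ) * (z * w) +
    ((2 * v / (1 + v ^ 2) ^ 2 : ℝ) : ℂ) * (z ^ 2 - w ^ 2)) * gg v z w

theorem v_mul_dG (v : ℝ) (z w : ℂ) : (v : ℂ) * dG v z w = vG v z w := by
  unfold dG vG
  rw [← mul_assoc]
  congr 1
  have h1 : (1 : ℂ) + (v : ℂ) ^ 2 ≠ 0 := by
    have := (one_add_sq_pos v).ne'
    exact_mod_cast this
  unfold cc dd
  push_cast
  field_simp
  ring

theorem hasDerivAt_one_sub_gg (v : ℝ) (z w : ℂ) :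
    HasDerivAt (fun v => 1 - gg v z w) (dG v z w) v := by
  have h1 : HasDerivAt (fun v => ph v z w)
      (((2 * (1 - v ^ 2) / (1 + v ^ 2) ^ 2 : ℝ) : ℂ) * (z * w) +
        ((2 * v / (1 + v ^ 2) ^ 2 : ℝ) : ℂ) * (z ^ 2 - w ^ 2)) v :=
    ((hasDerivAt_cc v).ofReal_comp.mul_const _).add ((hasDerivAt_dd v).ofReal_comp.mul_const _)
  have h2 : HasDerivAt (fun v => 1 - (rr v : ℂ) * exp (-ph v z w)) _ v :=
    (((hasDerivAt_rr v).ofReal_comp).mul h1.neg.cexp).const_sub 1
  refine h2.congr_deriv ?_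
  simp only [Pi.neg_apply]
  unfold dG gg
  push_cast
  ring

theorem norm_vG_le {v : ℝ} (hv : 0 < v) {z w : ℂ} {R : ℝ} (hz : ‖z‖ ≤ R) (hw : ‖w‖ ≤ R) :
    ‖vG v z w‖ ≤ CC R * min v 1 := by
  have hR : 0 ≤ R := (norm_nonneg z).trans hz
  have hm : 0 ≤ min v 1 := le_min hv.le zero_le_one
  have he0 : 0 ≤ Real.exp (3 * R ^ 2) := by positivity
  have hg := norm_gg_le hv hz hw
  have h1 : ‖z * w‖ ≤ R ^ 2 := by
    rw [norm_mul, sq]
    gcongr
  have h2 : ‖z ^ 2 - w ^ 2‖ ≤ 2 * R ^ 2 := by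
    refine (norm_sub_le _ _).trans ?_
    rw [norm_pow, norm_pow, two_mul]
    gcongr
  have h4 := cc_le hv
  have h5 := dd_le hv
  have h6 := cc_nonneg hv
  have h7 := dd_nonneg v
  have h8 := dd_le_one v
  have h9 : ‖((cc v * (1 - 2 * dd v) : ℝ) : ℂ)‖ ≤ 2 * min v 1 := by
    rw [norm_real, Real.norm_eq_abs, abs_mul, abs_of_nonneg h6]
    have : |1 - 2 * dd v| ≤ 1 := by
      rw [abs_le]
      constructor <;> linarith
    nlinarith
  have h10 : ‖((2 * dd v * (1 - dd v) : ℝ) : ℂ)‖ ≤ 2 * min v 1 := by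
    rw [norm_real, Real.norm_of_nonneg (mul_nonneg (by linarith) (by linarith))]
    nlinarith
  have h3 : ‖(dd v : ℂ) + cc v * (1 - 2 * dd v) * (z * w) +
      2 * dd v * (1 - dd v) * (z ^ 2 - w ^ 2)‖ ≤ (1 + 6 * R ^ 2) * min v 1 := by
    have e : (dd v : ℂ) + cc v * (1 - 2 * dd v) * (z * w) +
      2 * dd v * (1 - dd v) * (z ^ 2 - w ^ 2) = (dd v : ℂ) +
        ((cc v * (1 - 2 * dd v) : ℝ) : ℂ) * (z * w) +
        ((2 * dd v * (1 - dd v) : ℝ) : ℂ) * (z ^ 2 - w ^ 2) := by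
      push_cast
      ring
    rw [e]
    refine (norm_add₃_le).trans ?_
    rw [norm_mul _ (z * w), norm_mul _ (z ^ 2 - w ^ 2), norm_real, Real.norm_of_nonneg h7]
    have k1 := mul_le_mul h9 h1 (norm_nonneg _) (by positivity)
    have k2 := mul_le_mul h10 h2 (norm_nonneg _) (by positivity)
    nlinarith
  unfold vG
  rw [norm_mul]
  have k := mul_le_mul h3 hg (norm_nonneg _) (by positivity)
  refine k.trans ?_
  have h2 : (1 + 6 * R ^ 2) * min v 1 * Real.exp (3 * R ^ 2) =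
    (1 + 6 * R ^ 2) * Real.exp (3 * R ^ 2) * min v 1 := by ring
  rw [h2]
  unfold CC
  refine mul_le_mul_of_nonneg_right ?_ hm
  refine mul_le_mul_of_nonneg_right ?_ he0
  nlinarith

theorem continuous_dG (z w : ℂ) : Continuous fun v => dG v z w := by
  unfold dG
  refine Continuous.mul ?_ (continuous_gg z w)
  have k1 : Continuous fun v : ℝ => v / (1 + v ^ 2) :=
    continuous_id.div (by fun_prop) fun v => (one_add_sq_pos v).ne'
  have k2 : Continuous fun v : ℝ => 2 * (1 - v ^ 2) / (1 + v ^ 2) ^ 2 :=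
    Continuous.div (by fun_prop) (by fun_prop) fun v => (pow_pos (one_add_sq_pos v) 2).ne'
  have k3 : Continuous fun v : ℝ => 2 * v / (1 + v ^ 2) ^ 2 :=
    Continuous.div (by fun_prop) (by fun_prop) fun v => (pow_pos (one_add_sq_pos v) 2).ne'
  exact ((continuous_ofReal.comp k1).add ((continuous_ofReal.comp k2).mul continuous_const)).add
    ((continuous_ofReal.comp k3).mul continuous_const)

theorem integral_vG {ν : ℂ} (h0 : 0 < ν.re) (h1 : ν.re < 1) (z w : ℂ) :
    ∫ v in Ioi (0 : ℝ), wt ν v * vG v z w = ν * B ν z w := by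
  have r1 : ‖z‖ ≤ ‖z‖ + ‖w‖ := by linarith [norm_nonneg w]
  have r2 : ‖w‖ ≤ ‖z‖ + ‖w‖ := by linarith [norm_nonneg z]
  have h := integral_wt_parts h0 h1 (G := fun v => 1 - gg v z w) (G' := fun v => dG v z w)
    (C := CC (‖z‖ + ‖w‖)) (fun v _ => hasDerivAt_one_sub_gg v z w)
    (continuous_dG z w).continuousOn (fun v hv => (bounds hv r1 r2).1)
    (fun v hv => by
      rw [v_mul_dG]
      exact norm_vG_le hv r1 r2)
  simp only [v_mul_dG] at h
  exact h

/-- The differential equation in `w`. -/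
theorem B_ode {ν : ℂ} (h0 : 0 < ν.re) (h1 : ν.re < 1) (z w : ℂ) :
    Bww ν z w = 2 * w * Bw ν z w - 2 * ν * B ν z w := by
  have r1 : ‖z‖ ≤ ‖z‖ + ‖w‖ := by linarith [norm_nonneg w]
  have r2 : ‖w‖ ≤ ‖z‖ + ‖w‖ := by linarith [norm_nonneg z]
  have i1 := integrable_wt_mul h0 h1 (continuous_qq_gg z w).continuousOn
    (fun v hv => (bounds hv r1 r2).2.1)
  have i2 := integrable_wt_mul h0 h1 (continuous_third z w).continuousOn
    (fun v hv => (bounds hv r1 r2).2.2)
  have h2 : Bww ν z w - 2 * w * Bw ν z w =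
      -2 * ∫ v in Ioi (0 : ℝ), wt ν v * vG v z w := by
    unfold Bww Bw
    rw [← integral_const_mul, ← integral_const_mul, ← integral_sub i2 (i1.const_mul _)]
    refine setIntegral_congr_fun measurableSet_Ioi fun v _ => ?_
    have hcd : (cc v : ℂ) ^ 2 = 4 * dd v * (1 - dd v) := by
      have : cc v ^ 2 = 4 * dd v * (1 - dd v) := by
        unfold cc dd
        have := (one_add_sq_pos v).ne'
        field_simp
        ring
      exact_mod_cast this
    simp only [vG, qq]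
    linear_combination (-(z ^ 2) * wt ν v * gg v z w) * hcd
  rw [integral_vG h0 h1] at h2
  linear_combination h2

/-! ### Symmetries -/

theorem B_rot (ν z w : ℂ) : B ν (-I * w) (I * z) = B ν z w := by
  unfold B
  refine setIntegral_congr_fun measurableSet_Ioi fun v _ => ?_
  have : ph v (-I * w) (I * z) = ph v z w := by
    unfold ph
    linear_combination (-(cc v : ℂ) * z * w + dd v * (w ^ 2 - z ^ 2)) * I_sq
  simp only [gg, this]

theorem B_neg (ν z w : ℂ) : B ν (-z) (-w) = B ν z w := by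
  unfold B
  refine setIntegral_congr_fun measurableSet_Ioi fun v _ => ?_
  have : ph v (-z) (-w) = ph v z w := by
    unfold ph
    ring
  simp only [gg, this]

end

end Pool.Agent.Lib.MP_364e81_gt
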