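import Mathlib

set_option autoImplicit false

/-!
Spacelike surfaces `x : ℂ → ℝ⁴₁` parametrised by the plane: first fundamental form, mean curvature,
completeness, Gaussian curvature, normal curvature.
-/

namespace Pool.Agent.Lib.MP_364e81_gt

noncomputable section

open Complex MeasureTheory Filter Topology
open scoped ContDiff

/-- The Lorentzian inner product of `ℝ⁴₁`. -/
def lor (x y : Fin 4 → ℝ) : ℝ := -(x 0 * y 0) + x 1 * y 1 + x 2 * y 2 + x 3 * y 3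

/-- The partial derivative `∂/∂u` in the plane with coordinate `z = u + i v`. -/
def pu {V : Type*} [NormedAddCommGroup V] [NormedSpace ℝ V] (f : ℂ → V) (z : ℂ) : V :=
  fderiv ℝ f z 1

/-- The partial derivative `∂/∂v` in the plane with coordinate `z = u + i v`. -/
def pv {V : Type*} [NormedAddCommGroup V] [NormedSpace ℝ V] (f : ℂ → V) (z : ℂ) : V :=
  fderiv ℝ f z I

/-- Coefficient `E = ⟨x_u, x_u⟩` of the induced metric. -/
def gE (x : ℂ → Fin 4 → ℝ) (z : ℂ) : ℝ := lor (pu x z) (pu x z)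

/-- Coefficient `F = ⟨x_u, x_v⟩` of the induced metric. -/
def gF (x : ℂ → Fin 4 → ℝ) (z : ℂ) : ℝ := lor (pu x z) (pv x z)

/-- Coefficient `G = ⟨x_v, x_v⟩` of the induced metric. -/
def gG (x : ℂ → Fin 4 → ℝ) (z : ℂ) : ℝ := lor (pv x z) (pv x z)

/-- Spacelike immersion: the induced metric is positive definite. -/
def IsSpacelike (x : ℂ → Fin 4 → ℝ) : Prop :=
  ∀ z, 0 < gE x z ∧ 0 < gE x z * gG x z - gF x z ^ 2

/-- The density of the induced area element `dM = √(EG - F²) du dv`. -/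
def area (x : ℂ → Fin 4 → ℝ) (z : ℂ) : ℝ := √(gE x z * gG x z - gF x z ^ 2)

/-- The mean curvature vector, the normal part of
`(G x_uu - 2 F x_uv + E x_vv) / (2 (EG - F²))`, vanishes identically. -/
def IsStationary (x : ℂ → Fin 4 → ℝ) : Prop :=
  ∀ z, ∀ n : Fin 4 → ℝ, lor n (pu x z) = 0 → lor n (pv x z) = 0 →
    lor n (gG x z • pu (pu x) z - (2 * gF x z) • pu (pv x) z + gE x z • pv (pv x) z) = 0

/-- The speed of a curve in the induced metric. -/
def speed (x : ℂ → Fin 4 → ℝ) (γ : ℝ → ℂ) (t : ℝ) : ℝ :=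
  √(gE x (γ t) * (deriv γ t).re ^ 2 + 2 * gF x (γ t) * (deriv γ t).re * (deriv γ t).im +
    gG x (γ t) * (deriv γ t).im ^ 2)

/-- Completeness of the induced metric: every `C¹` curve leaving all compact sets has infinite
length. -/
def IsCompleteSurface (x : ℂ → Fin 4 → ℝ) : Prop :=
  ∀ γ : ℝ → ℂ, ContDiff ℝ 1 γ → Tendsto γ atTop (cocompact ℂ) →
    Tendsto (fun T : ℝ => ∫ t in (0 : ℝ)..T, speed x γ t) atTop atTop

/-- The Gaussian curvature of the induced metric `E du² + 2 F du dv + G dv²` (Brioschi's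
formula). -/
def gaussK (x : ℂ → Fin 4 → ℝ) (z : ℂ) : ℝ :=
  (Matrix.det
      !![-(pv (pv (gE x)) z) / 2 + pu (pv (gF x)) z - pu (pu (gG x)) z / 2,
          pu (gE x) z / 2, pu (gF x) z - pv (gE x) z / 2;
        pv (gF x) z - pu (gG x) z / 2, gE x z, gF x z;
        pv (gG x) z / 2, gF x z, gG x z] -
    Matrix.det
      !![0, pv (gE x) z / 2, pu (gG x) z / 2;
        pv (gE x) z / 2, gE x z, gF x z;
        pu (gG x) z / 2, gF x z, gG x z]) /
    (gE x z * gG x z - gF x z ^ 2) ^ 2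

/-- A smooth orthonormal frame `e3` (spacelike), `e4` (timelike) of the normal bundle. -/
structure IsNormalFrame (x e3 e4 : ℂ → Fin 4 → ℝ) : Prop where
  smooth3 : ContDiff ℝ ∞ e3
  smooth4 : ContDiff ℝ ∞ e4
  norm3 : ∀ z, lor (e3 z) (e3 z) = 1
  norm4 : ∀ z, lor (e4 z) (e4 z) = -1
  orth : ∀ z, lor (e3 z) (e4 z) = 0
  normal3u : ∀ z, lor (e3 z) (pu x z) = 0
  normal3v : ∀ z, lor (e3 z) (pv x z) = 0
  normal4u : ∀ z, lor (e4 z) (pu x z) = 0
  normal4v : ∀ z, lor (e4 z) (pv x z) = 0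

/-- The normal part of a vector field, in terms of an orthonormal frame `e3`, `e4`. -/
def normalPart (e3 e4 : ℂ → Fin 4 → ℝ) (ξ : ℂ → Fin 4 → ℝ) (z : ℂ) : Fin 4 → ℝ :=
  lor (ξ z) (e3 z) • e3 z - lor (ξ z) (e4 z) • e4 z

/-- The normal connection in the direction `∂/∂u`. -/
def nablaU (e3 e4 : ℂ → Fin 4 → ℝ) (ξ : ℂ → Fin 4 → ℝ) : ℂ → Fin 4 → ℝ :=
  normalPart e3 e4 (pu ξ)

/-- The normal connection in the direction `∂/∂v`. -/
def nablaV (e3 e4 : ℂ → Fin 4 → ℝ) (ξ : ℂ → Fin 4 → ℝ) : ℂ → Fin 4 → ℝ :=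
  normalPart e3 e4 (pv ξ)

/-- The normal curvature `K^⊥ = ⟨R^⊥(e₁, e₂) e₃, e₄⟩ = ⟨R^⊥(∂_u, ∂_v) e₃, e₄⟩ / √(EG - F²)`. -/
def normalK (x e3 e4 : ℂ → Fin 4 → ℝ) (z : ℂ) : ℝ :=
  lor (nablaU e3 e4 (nablaV e3 e4 e3) z - nablaV e3 e4 (nablaU e3 e4 e3) z) (e4 z) / area x z

end

end Pool.Agent.Lib.MP_364e81_gt
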