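import Pool.Agent.Lib.MP_364e81_gt.Wirtinger

set_option autoImplicit false

/-!
A Stokes formula on the plane.
-/

namespace Pool.Agent.Lib.MP_364e81_gt

open Complex MeasureTheory Filter Topology Set ComplexConjugate

noncomputable section

theorem exists_radius {P : ℂ → Prop} (h : ∀ᶠ z in cocompact ℂ, P z) :
    ∃ R : ℝ, ∀ z : ℂ, R ≤ ‖z‖ → P z := by
  rw [← Metric.cobounded_eq_cocompact, ← comap_norm_atTop, eventually_comap,
    eventually_atTop] at h
  obtain ⟨R, hR⟩ := h
  exact ⟨R, fun z hz => hR ‖z‖ hz z rfl⟩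

theorem tendsto_cocompact {ι : Type*} {l : Filter ι} {g : ι → ℂ}
    (h : Tendsto (fun i => ‖g i‖) l atTop) : Tendsto g l (cocompact ℂ) := by
  rw [← Metric.cobounded_eq_cocompact]
  exact tendsto_norm_atTop_iff_cobounded.mp h

theorem side_limit {f : ℂ → ℂ} (hf : Continuous f) {ν : ℂ}
    (hlim : Tendsto (fun z => z * f z) (cocompact ℂ) (𝓝 ν)) {ζ : ℝ → ℂ} (hζ : Continuous ζ)
    (h1 : ∀ t, 1 ≤ ‖ζ t‖) :
    Tendsto (fun n : ℕ => ∫ t in (-1 : ℝ)..1, (n : ℂ) * f (n * ζ t)) atTop
      (𝓝 (∫ t in (-1 : ℝ)..1, ν / ζ t)) := by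
  have hb : ∀ᶠ z in cocompact ℂ, ‖z * f z‖ ≤ ‖ν‖ + 1 := by
    have := hlim.norm
    exact (this.eventually (eventually_lt_nhds (lt_add_one ‖ν‖))).mono fun _ h => h.le
  obtain ⟨R, hR⟩ := exists_radius hb
  refine intervalIntegral.tendsto_integral_filter_of_dominated_convergence
    (fun _ => ‖ν‖ + 1) ?_ ?_ intervalIntegrable_const ?_
  · refine Eventually.of_forall fun n => Continuous.aestronglyMeasurable ?_
    exact continuous_const.mul (hf.comp (continuous_const.mul hζ))
  · filter_upwards [eventually_ge_atTop ⌈R⌉₊] with n hn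
    refine ae_of_all _ fun t _ => ?_
    have h2 : R ≤ ‖(n : ℂ) * ζ t‖ := by
      rw [norm_mul, Complex.norm_natCast]
      have h3 : R ≤ n := (Nat.le_ceil R).trans (by exact_mod_cast hn)
      have h4 : (n : ℝ) * 1 ≤ n * ‖ζ t‖ := mul_le_mul_of_nonneg_left (h1 t) (Nat.cast_nonneg n)
      linarith
    refine le_trans ?_ (hR _ h2)
    rw [norm_mul, norm_mul, norm_mul]
    have h5 : ‖(n : ℂ)‖ * 1 ≤ ‖(n : ℂ)‖ * ‖ζ t‖ :=
      mul_le_mul_of_nonneg_left (h1 t) (norm_nonneg _)
    rw [mul_one] at h5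
    exact mul_le_mul_of_nonneg_right h5 (norm_nonneg _)
  · refine ae_of_all _ fun t _ => ?_
    have h0 : ζ t ≠ 0 := by
      intro h
      have := h1 t
      rw [h, norm_zero] at this
      linarith
    have h2 : Tendsto (fun n : ℕ => (n : ℂ) * ζ t) atTop (cocompact ℂ) := by
      apply tendsto_cocompact
      simp only [norm_mul, Complex.norm_natCast]
      exact Tendsto.atTop_mul_const (norm_pos_iff.mpr h0) tendsto_natCast_atTop_atTop
    have h3 := (hlim.comp h2).div_const (ζ t)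
    refine h3.congr fun n => ?_
    simp only [Function.comp]
    field_simp

theorem scale_integral (g : ℝ → ℂ) (n : ℕ) :
    ∫ x in (-(n : ℝ))..n, g x = ∫ t in (-1 : ℝ)..1, (n : ℂ) * g (n * t) := by
  have h := intervalIntegral.smul_integral_comp_mul_left (f := g) (a := -1) (b := 1) (n : ℝ)
  rw [mul_neg_one, mul_one] at h
  rw [← h, intervalIntegral.integral_const_mul, real_smul]
  simp

/-- Stokes' formula on the plane. -/
theorem flux {f fz fb : ℂ → ℂ} {ν : ℂ} (hf : ∀ z, HasW f (fz z) (fb z) z)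
    (hint : Integrable fb) (hlim : Tendsto (fun z => z * f z) (cocompact ℂ) (𝓝 ν)) :
    ∫ z, fb z = Real.pi * ν := by
  have hfc : Continuous f := by
    rw [continuous_iff_continuousAt]
    exact fun z => (hf z).hasFDerivAt.continuousAt
  have hg : ∀ z, I • wlin (fz z) (fb z) 1 - wlin (fz z) (fb z) I = 2 * I * fb z := by
    intro z
    rw [wlin_apply, wlin_apply]
    simp
    ring
  -- the formula on squares
  have hsq : ∀ n : ℕ, (∫ x : ℝ in (-(n : ℝ))..n, f (x + (-(n : ℝ) : ℝ) * I)) -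
      (∫ x : ℝ in (-(n : ℝ))..n, f (x + (n : ℝ) * I)) +
      I • (∫ y : ℝ in (-(n : ℝ))..n, f ((n : ℝ) + y * I)) -
      I • (∫ y : ℝ in (-(n : ℝ))..n, f ((-(n : ℝ) : ℝ) + y * I)) =
      ∫ x : ℝ in (-(n : ℝ))..n, ∫ y : ℝ in (-(n : ℝ))..n, 2 * I * fb (x + y * I) := by
    intro n
    have h := integral_boundary_rect_of_hasFDerivAt_real_off_countable f
      (fun z => wlin (fz z) (fb z)) ⟨-(n : ℝ), -(n : ℝ)⟩ ⟨(n : ℝ), (n : ℝ)⟩ ∅ countable_empty
      hfc.continuousOn (fun z _ => hf z) (by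
        simp only [hg]
        exact (hint.const_mul (2 * I)).integrableOn)
    simp only [hg] at h
    exact h
  -- right-hand side
  have hset : ∀ n : ℕ, (∫ x : ℝ in (-(n : ℝ))..n, ∫ y : ℝ in (-(n : ℝ))..n,
      2 * I * fb (x + y * I)) =
      ∫ p in (Ioc (-(n : ℝ)) n ×ˢ Ioc (-(n : ℝ)) n), 2 * I * fb (p.1 + p.2 * I) := by
    intro n
    have hn : (-(n : ℝ)) ≤ n := by
      have : (0 : ℝ) ≤ n := Nat.cast_nonneg n
      linarith
    rw [Measure.volume_eq_prod, setIntegral_prod]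
    · rw [intervalIntegral.integral_of_le hn]
      refine setIntegral_congr_fun measurableSet_Ioc fun x _ => ?_
      simp only
      rw [intervalIntegral.integral_of_le hn]
    · rw [← Measure.volume_eq_prod]
      have h2 : Integrable (fun p : ℝ × ℝ => 2 * I * fb (p.1 + p.2 * I)) := by
        have h3 := (Complex.volume_preserving_equiv_real_prod.symm).integrable_comp_of_integrable
          (hint.const_mul (2 * I))
        refine h3.congr (ae_of_all _ fun p => ?_)
        simp only [Function.comp, measurableEquivRealProd_symm_apply, mk_eq_add_mul_I]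
      exact h2.integrableOn
  have hlimR : Tendsto (fun n : ℕ => ∫ p in (Ioc (-(n : ℝ)) n ×ˢ Ioc (-(n : ℝ)) n),
      2 * I * fb (p.1 + p.2 * I)) atTop (𝓝 (2 * I * ∫ z, fb z)) := by
    have h2 : Integrable (fun p : ℝ × ℝ => 2 * I * fb (p.1 + p.2 * I)) := by
      have h3 := (Complex.volume_preserving_equiv_real_prod.symm).integrable_comp_of_integrable
        (hint.const_mul (2 * I))
      refine h3.congr (ae_of_all _ fun p => ?_)
      simp only [Function.comp, measurableEquivRealProd_symm_apply, mk_eq_add_mul_I]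
    have hU : (⋃ n : ℕ, Ioc (-(n : ℝ)) n ×ˢ Ioc (-(n : ℝ)) n) = (univ : Set (ℝ × ℝ)) := by
      rw [eq_univ_iff_forall]
      rintro ⟨a, b⟩
      obtain ⟨n, hn⟩ := exists_nat_gt (max |a| |b|)
      rw [mem_iUnion]
      refine ⟨n, ?_⟩
      have h3 : |a| < n := (le_max_left _ _).trans_lt hn
      have h4 : |b| < n := (le_max_right _ _).trans_lt hn
      rw [abs_lt] at h3 h4
      exact ⟨⟨h3.1, h3.2.le⟩, ⟨h4.1, h4.2.le⟩⟩
    have h3 := tendsto_setIntegral_of_monotone (μ := (volume : Measure (ℝ × ℝ)))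
      (s := fun n : ℕ => Ioc (-(n : ℝ)) n ×ˢ Ioc (-(n : ℝ)) n)
      (f := fun p : ℝ × ℝ => 2 * I * fb (p.1 + p.2 * I))
      (fun n => measurableSet_Ioc.prod measurableSet_Ioc)
      (fun m n hmn => by
        have : (m : ℝ) ≤ n := by exact_mod_cast hmn
        exact prod_mono (Ioc_subset_Ioc (by linarith) this) (Ioc_subset_Ioc (by linarith) this))
      (by
        rw [hU]
        exact h2.integrableOn)
    rw [hU, setIntegral_univ] at h3
    have h4 : ∫ p : ℝ × ℝ, 2 * I * fb (p.1 + p.2 * I) = 2 * I * ∫ z, fb z := by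
      rw [← integral_const_mul]
      have h5 := (Complex.volume_preserving_equiv_real_prod.symm).integral_comp'
        (fun z => 2 * I * fb z)
      rw [← h5]
      refine integral_congr_ae (ae_of_all _ fun p => ?_)
      simp only [measurableEquivRealProd_symm_apply, mk_eq_add_mul_I]
    rw [h4] at h3
    exact h3
  -- left-hand side
  have hs1 := side_limit hfc hlim (ζ := fun t => (t : ℂ) - I) (by fun_prop) (fun t => by
    have := Complex.abs_im_le_norm ((t : ℂ) - I)
    simpa using this)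
  have hs2 := side_limit hfc hlim (ζ := fun t => (t : ℂ) + I) (by fun_prop) (fun t => by
    have := Complex.abs_im_le_norm ((t : ℂ) + I)
    simpa using this)
  have hs3 := side_limit hfc hlim (ζ := fun t => 1 + (t : ℂ) * I) (by fun_prop) (fun t => by
    have := Complex.abs_re_le_norm (1 + (t : ℂ) * I)
    simpa using this)
  have hs4 := side_limit hfc hlim (ζ := fun t => -1 + (t : ℂ) * I) (by fun_prop) (fun t => by
    have := Complex.abs_re_le_norm (-1 + (t : ℂ) * I)
    simpa using this)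
  have hL := ((hs1.sub hs2).add (hs3.const_smul I)).sub (hs4.const_smul I)
  have hL' : Tendsto (fun n : ℕ => ∫ p in (Ioc (-(n : ℝ)) n ×ˢ Ioc (-(n : ℝ)) n),
      2 * I * fb (p.1 + p.2 * I)) atTop (𝓝 (((∫ t in (-1 : ℝ)..1, ν / ((t : ℂ) - I)) -
      (∫ t in (-1 : ℝ)..1, ν / ((t : ℂ) + I)) +
      I • ∫ t in (-1 : ℝ)..1, ν / (1 + (t : ℂ) * I)) -
      I • ∫ t in (-1 : ℝ)..1, ν / (-1 + (t : ℂ) * I))) := by
    refine hL.congr fun n => ?_
    rw [← hset, ← hsq, scale_integral, scale_integral, scale_integral, scale_integral]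
    push_cast
    have e1 : ∀ t : ℝ, ((n : ℂ) * (t : ℂ) + -(n : ℂ) * I) = n * ((t : ℂ) - I) := fun t => by ring
    have e2 : ∀ t : ℝ, ((n : ℂ) * (t : ℂ) + (n : ℂ) * I) = n * ((t : ℂ) + I) := fun t => by ring
    have e3 : ∀ t : ℝ, ((n : ℂ) + (n : ℂ) * (t : ℂ) * I) = n * (1 + (t : ℂ) * I) :=
      fun t => by ring
    have e4 : ∀ t : ℝ, (-(n : ℂ) + (n : ℂ) * (t : ℂ) * I) = n * (-1 + (t : ℂ) * I) :=
      fun t => by ring
    simp only [e1, e2, e3, e4]
  have huniq := tendsto_nhds_unique hL' hlimR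
  have hne1 : ∀ t : ℝ, (t : ℂ) - I ≠ 0 := fun t h => by
    have := congrArg Complex.im h
    simp at this
  have hne2 : ∀ t : ℝ, (t : ℂ) + I ≠ 0 := fun t h => by
    have := congrArg Complex.im h
    simp at this
  have hne3 : ∀ t : ℝ, 1 + (t : ℂ) * I ≠ 0 := fun t h => by
    have := congrArg Complex.re h
    simp at this
  have hne4 : ∀ t : ℝ, -1 + (t : ℂ) * I ≠ 0 := fun t h => by
    have := congrArg Complex.re h
    simp at this
  have hsum : ((∫ t in (-1 : ℝ)..1, ν / ((t : ℂ) - I)) -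
      (∫ t in (-1 : ℝ)..1, ν / ((t : ℂ) + I)) +
      I • ∫ t in (-1 : ℝ)..1, ν / (1 + (t : ℂ) * I)) -
      I • ∫ t in (-1 : ℝ)..1, ν / (-1 + (t : ℂ) * I) = 2 * Real.pi * I * ν := by
    have i1 : IntervalIntegrable (fun t : ℝ => ν / ((t : ℂ) - I)) volume (-1) 1 :=
      (continuous_const.div (by fun_prop) hne1).intervalIntegrable _ _
    have i2 : IntervalIntegrable (fun t : ℝ => ν / ((t : ℂ) + I)) volume (-1) 1 :=
      (continuous_const.div (by fun_prop) hne2).intervalIntegrable _ _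
    have i3 : IntervalIntegrable (fun t : ℝ => I • (ν / (1 + (t : ℂ) * I))) volume (-1) 1 :=
      ((continuous_const.div (by fun_prop) hne3).const_smul I).intervalIntegrable _ _
    have i4 : IntervalIntegrable (fun t : ℝ => I • (ν / (-1 + (t : ℂ) * I))) volume (-1) 1 :=
      ((continuous_const.div (by fun_prop) hne4).const_smul I).intervalIntegrable _ _
    rw [← intervalIntegral.integral_smul, ← intervalIntegral.integral_smul,
      ← intervalIntegral.integral_sub i1 i2, ← intervalIntegral.integral_add (i1.sub i2) i3,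
      ← intervalIntegral.integral_sub ((i1.sub i2).add i3) i4]
    have h5 : ∀ t : ℝ, ν / ((t : ℂ) - I) - ν / ((t : ℂ) + I) + I • (ν / (1 + (t : ℂ) * I)) -
        I • (ν / (-1 + (t : ℂ) * I)) = (4 * I * ν) * (((1 + t ^ 2)⁻¹ : ℝ) : ℂ) := by
      intro t
      have k1 := hne1 t
      have k2 := hne2 t
      have k3 := hne3 t
      have k4 := hne4 t
      have k5 : (1 : ℂ) + (t : ℂ) ^ 2 ≠ 0 := by
        have : (0 : ℝ) < 1 + t ^ 2 := by positivity
        exact_mod_cast this.ne'
      have f1 : ν / ((t : ℂ) - I) = ν * ((t : ℂ) + I) / (1 + (t : ℂ) ^ 2) := by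
        rw [div_eq_div_iff k1 k5]
        linear_combination (ν : ℂ) * I_sq
      have f2 : ν / ((t : ℂ) + I) = ν * ((t : ℂ) - I) / (1 + (t : ℂ) ^ 2) := by
        rw [div_eq_div_iff k2 k5]
        linear_combination (ν : ℂ) * I_sq
      have f3 : ν / (1 + (t : ℂ) * I) = ν * (1 - (t : ℂ) * I) / (1 + (t : ℂ) ^ 2) := by
        rw [div_eq_div_iff k3 k5]
        linear_combination (ν * t ^ 2 : ℂ) * I_sq
      have f4 : ν / (-1 + (t : ℂ) * I) = ν * (-1 - (t : ℂ) * I) / (1 + (t : ℂ) ^ 2) := by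
        rw [div_eq_div_iff k4 k5]
        linear_combination (ν * t ^ 2 : ℂ) * I_sq
      rw [f1, f2, f3, f4]
      push_cast
      simp only [smul_eq_mul]
      field_simp
      ring
    have h6 : (∫ t in (-1 : ℝ)..1, (ν / ((t : ℂ) - I) - ν / ((t : ℂ) + I) +
        I • (ν / (1 + (t : ℂ) * I)) - I • (ν / (-1 + (t : ℂ) * I)))) =
        ∫ t in (-1 : ℝ)..1, (4 * I * ν) * (((1 + t ^ 2)⁻¹ : ℝ) : ℂ) :=
      intervalIntegral.integral_congr fun t _ => h5 t
    rw [h6, intervalIntegral.integral_const_mul, intervalIntegral.integral_ofReal,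
      integral_inv_one_add_sq, Real.arctan_one, Real.arctan_neg, Real.arctan_one]
    push_cast
    ring
  rw [hsum] at huniq
  have hI : (2 * I : ℂ) ≠ 0 := by simp
  apply mul_left_cancel₀ hI
  rw [← huniq]
  ring

end

end Pool.Agent.Lib.MP_364e81_gt
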