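import Pool.Agent.Lib.MP_364e81_gt.Weight

set_option autoImplicit false

/-!
The kernel `B(z, w) = ∫₀^∞ v^(-ν-1) (1 - (1+v²)^(-1/2) exp(-(2vzw + v²(z²-w²))/(1+v²))) dv`.
-/

namespace Pool.Agent.Lib.MP_364e81_gt

open Complex MeasureTheory Filter Topology Set

noncomputable section

/-- `2v/(1+v²)` -/
def cc (v : ℝ) : ℝ := 2 * v / (1 + v ^ 2)

/-- `v²/(1+v²)` -/
def dd (v : ℝ) : ℝ := v ^ 2 / (1 + v ^ 2)

/-- `(1+v²)^(-1/2)` -/
def rr (v : ℝ) : ℝ := (√(1 + v ^ 2))⁻¹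

theorem one_add_sq_pos (v : ℝ) : 0 < 1 + v ^ 2 := by positivity

theorem continuous_cc : Continuous cc := by
  unfold cc
  exact (continuous_const.mul continuous_id).div (by fun_prop) fun v => (one_add_sq_pos v).ne'

theorem continuous_dd : Continuous dd := by
  unfold dd
  exact (continuous_id.pow 2).div (by fun_prop) fun v => (one_add_sq_pos v).ne'

theorem continuous_rr : Continuous rr := by
  unfold rr
  exact (Real.continuous_sqrt.comp (by fun_prop)).inv₀ fun v =>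
    (Real.sqrt_pos.mpr (one_add_sq_pos v)).ne'

theorem rr_pos (v : ℝ) : 0 < rr v := inv_pos.mpr (Real.sqrt_pos.mpr (one_add_sq_pos v))

theorem rr_le_one (v : ℝ) : rr v ≤ 1 := by
  unfold rr
  apply inv_le_one_of_one_le₀
  rw [Real.one_le_sqrt]
  nlinarith [sq_nonneg v]

theorem one_sub_rr_le {v : ℝ} (hv : 0 < v) : 1 - rr v ≤ min v 1 := by
  apply le_min
  · have h1 : √(1 + v ^ 2) ≤ 1 + v := by
      rw [Real.sqrt_le_left (by linarith)]
      nlinarith
    have h2 : (1 + v)⁻¹ ≤ rr v := by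
      unfold rr
      exact inv_anti₀ (Real.sqrt_pos.mpr (one_add_sq_pos v)) h1
    have h3 : 1 - v ≤ (1 + v)⁻¹ := by
      rw [← one_div, le_div_iff₀ (by linarith)]
      nlinarith
    linarith
  · linarith [rr_pos v]

theorem cc_nonneg {v : ℝ} (hv : 0 < v) : 0 ≤ cc v := by
  unfold cc
  positivity

theorem dd_nonneg (v : ℝ) : 0 ≤ dd v := by
  unfold dd
  positivity

theorem cc_le_one (v : ℝ) : cc v ≤ 1 := by
  unfold cc
  rw [div_le_one (one_add_sq_pos v)]
  nlinarith [sq_nonneg (v - 1)]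

theorem dd_le_one (v : ℝ) : dd v ≤ 1 := by
  unfold dd
  rw [div_le_one (one_add_sq_pos v)]
  linarith

theorem cc_le {v : ℝ} (hv : 0 < v) : cc v ≤ 2 * min v 1 := by
  rw [mul_min_of_nonneg _ _ zero_le_two]
  apply le_min
  · unfold cc
    rw [div_le_iff₀ (one_add_sq_pos v)]
    nlinarith [pow_pos hv 3]
  · linarith [cc_le_one v]

theorem dd_le {v : ℝ} (hv : 0 < v) : dd v ≤ min v 1 := by
  apply le_min
  · unfold dd
    rw [div_le_iff₀ (one_add_sq_pos v)]
    nlinarith [sq_nonneg (v - 1), mul_pos hv hv]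
  · exact dd_le_one v

theorem hasDerivAt_cc (v : ℝ) : HasDerivAt cc (2 * (1 - v ^ 2) / (1 + v ^ 2) ^ 2) v := by
  have h1 : HasDerivAt (fun v : ℝ => 2 * v) 2 v := by
    simpa using (hasDerivAt_id v).const_mul 2
  have h2 : HasDerivAt (fun v : ℝ => 1 + v ^ 2) (2 * v) v := by
    simpa using (hasDerivAt_pow 2 v).const_add 1
  refine (h1.div h2 (one_add_sq_pos v).ne').congr_deriv ?_
  congr 1
  ring

theorem hasDerivAt_dd (v : ℝ) : HasDerivAt dd (2 * v / (1 + v ^ 2) ^ 2) v := by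
  have h1 : HasDerivAt (fun v : ℝ => v ^ 2) (2 * v) v := by
    simpa using hasDerivAt_pow 2 v
  have h2 : HasDerivAt (fun v : ℝ => 1 + v ^ 2) (2 * v) v := by
    simpa using (hasDerivAt_pow 2 v).const_add 1
  refine (h1.div h2 (one_add_sq_pos v).ne').congr_deriv ?_
  congr 1
  ring

theorem hasDerivAt_rr (v : ℝ) : HasDerivAt rr (-(v / (1 + v ^ 2)) * rr v) v := by
  have h2 : HasDerivAt (fun v : ℝ => 1 + v ^ 2) (2 * v) v := by
    simpa using (hasDerivAt_pow 2 v).const_add 1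
  have h3 := (h2.sqrt (one_add_sq_pos v).ne').inv
    (Real.sqrt_pos.mpr (one_add_sq_pos v)).ne'
  refine h3.congr_deriv ?_
  unfold rr
  have h4 : √(1 + v ^ 2) ^ 2 = 1 + v ^ 2 := Real.sq_sqrt (one_add_sq_pos v).le
  have h5 := (Real.sqrt_pos.mpr (one_add_sq_pos v)).ne'
  rw [← h4]
  simp only [Real.sqrt_sq (Real.sqrt_nonneg (1 + v ^ 2))]
  field_simp

/-! ### The kernel -/

/-- The exponent. -/
def ph (v : ℝ) (z w : ℂ) : ℂ := cc v * (z * w) + dd v * (z ^ 2 - w ^ 2)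

/-- `(1+v²)^(-1/2) exp(-(2vzw + v²(z²-w²))/(1+v²))` -/
def gg (v : ℝ) (z w : ℂ) : ℂ := rr v * exp (-ph v z w)

/-- The `w`-derivative of the exponent. -/
def qq (v : ℝ) (z w : ℂ) : ℂ := cc v * z - 2 * dd v * w

theorem hasDerivAt_ph (v : ℝ) (z w : ℂ) : HasDerivAt (fun w => ph v z w) (qq v z w) w := by
  have h1 : HasDerivAt (fun w : ℂ => (cc v : ℂ) * (z * w)) (cc v * z) w := by
    simpa using ((hasDerivAt_id w).const_mul z).const_mul (cc v : ℂ)
  have h2 : HasDerivAt (fun w : ℂ => (dd v : ℂ) * (z ^ 2 - w ^ 2)) (dd v * (-(2 * w))) w := by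
    simpa using ((hasDerivAt_pow 2 w).const_sub (z ^ 2)).const_mul (dd v : ℂ)
  refine (h1.add h2).congr_deriv ?_
  unfold qq
  ring

theorem hasDerivAt_gg (v : ℝ) (z w : ℂ) :
    HasDerivAt (fun w => gg v z w) (-(qq v z w * gg v z w)) w := by
  have h : HasDerivAt (fun w => (rr v : ℂ) * exp (-ph v z w))
      ((rr v : ℂ) * (exp (-ph v z w) * -qq v z w)) w :=
    ((hasDerivAt_ph v z w).neg.cexp).const_mul (rr v : ℂ)
  refine h.congr_deriv ?_
  unfold gg
  ring

theorem hasDerivAt_qq (v : ℝ) (z w : ℂ) : HasDerivAt (fun w => qq v z w) (-(2 * dd v)) w := by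
  have h : HasDerivAt (fun w => (cc v : ℂ) * z - 2 * dd v * w) (-(2 * dd v * 1)) w :=
    ((hasDerivAt_id w).const_mul (2 * dd v : ℂ)).const_sub (cc v * z)
  rw [mul_one] at h
  exact h

theorem norm_ph_le {v : ℝ} (hv : 0 < v) {z w : ℂ} {R : ℝ} (hz : ‖z‖ ≤ R) (hw : ‖w‖ ≤ R) :
    ‖ph v z w‖ ≤ 4 * R ^ 2 * min v 1 ∧ ‖ph v z w‖ ≤ 3 * R ^ 2 := by
  have hR : 0 ≤ R := (norm_nonneg z).trans hz
  have h1 : ‖z * w‖ ≤ R ^ 2 := by
    rw [norm_mul, sq]
    gcongr
  have h2 : ‖z ^ 2 - w ^ 2‖ ≤ 2 * R ^ 2 := by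
    refine (norm_sub_le _ _).trans ?_
    rw [norm_pow, norm_pow, two_mul]
    gcongr
  have h3 : ‖ph v z w‖ ≤ cc v * R ^ 2 + dd v * (2 * R ^ 2) := by
    unfold ph
    refine (norm_add_le _ _).trans ?_
    rw [norm_mul (cc v : ℂ), norm_mul (dd v : ℂ), norm_real, norm_real,
      Real.norm_of_nonneg (cc_nonneg hv), Real.norm_of_nonneg (dd_nonneg v)]
    have := cc_nonneg hv
    have := dd_nonneg v
    gcongr
  have h4 := cc_le hv
  have h5 := dd_le hv
  have h6 := cc_le_one v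
  have h7 := dd_le_one v
  have h8 : 0 ≤ R ^ 2 := by positivity
  constructor
  · refine h3.trans ?_
    nlinarith
  · refine h3.trans ?_
    nlinarith

theorem norm_gg_le {v : ℝ} (hv : 0 < v) {z w : ℂ} {R : ℝ} (hz : ‖z‖ ≤ R) (hw : ‖w‖ ≤ R) :
    ‖gg v z w‖ ≤ Real.exp (3 * R ^ 2) := by
  unfold gg
  rw [norm_mul, norm_real, Real.norm_of_nonneg (rr_pos v).le]
  have h1 : ‖exp (-ph v z w)‖ ≤ Real.exp (3 * R ^ 2) := by
    refine (norm_exp_le_exp_norm _).trans ?_
    rw [norm_neg]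
    exact Real.exp_le_exp.mpr (norm_ph_le hv hz hw).2
  have h2 := mul_le_mul (rr_le_one v) h1 (norm_nonneg _) zero_le_one
  rwa [one_mul] at h2

theorem norm_one_sub_gg_le {v : ℝ} (hv : 0 < v) {z w : ℂ} {R : ℝ} (hz : ‖z‖ ≤ R)
    (hw : ‖w‖ ≤ R) :
    ‖1 - gg v z w‖ ≤ (1 + 4 * R ^ 2 * Real.exp (3 * R ^ 2)) * min v 1 := by
  have h1 : ‖exp (-ph v z w) - 1‖ ≤ 4 * R ^ 2 * min v 1 * Real.exp (3 * R ^ 2) := by
    have h := norm_exp_sub_sum_le_norm_mul_exp (-ph v z w) 1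
    simp only [Finset.range_one, Finset.sum_singleton, pow_zero, Nat.factorial_zero,
      Nat.cast_one, div_one, pow_one, norm_neg] at h
    refine h.trans ?_
    obtain ⟨h2, h3⟩ := norm_ph_le hv hz hw
    have h4 := Real.exp_le_exp.mpr h3
    have : 0 ≤ min v 1 := le_min hv.le zero_le_one
    gcongr
  have h2 : 1 - gg v z w = ((1 - rr v : ℝ) : ℂ) - rr v * (exp (-ph v z w) - 1) := by
    unfold gg
    push_cast
    ring
  rw [h2]
  refine (norm_sub_le _ _).trans ?_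
  rw [norm_mul, norm_real, norm_real, Real.norm_of_nonneg (rr_pos v).le,
    Real.norm_of_nonneg (by linarith [rr_le_one v])]
  have h3 := one_sub_rr_le hv
  have h4 : rr v * ‖exp (-ph v z w) - 1‖ ≤ 1 * (4 * R ^ 2 * min v 1 * Real.exp (3 * R ^ 2)) :=
    mul_le_mul (rr_le_one v) h1 (norm_nonneg _) zero_le_one
  linarith

theorem norm_qq_le {v : ℝ} (hv : 0 < v) {z w : ℂ} {R : ℝ} (hz : ‖z‖ ≤ R) (hw : ‖w‖ ≤ R) :
    ‖qq v z w‖ ≤ 4 * R * min v 1 ∧ ‖qq v z w‖ ≤ 3 * R := by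
  have hR : 0 ≤ R := (norm_nonneg z).trans hz
  have h3 : ‖qq v z w‖ ≤ cc v * R + 2 * dd v * R := by
    unfold qq
    refine (norm_sub_le _ _).trans ?_
    rw [norm_mul, norm_mul, norm_mul, norm_real, norm_real, Real.norm_of_nonneg (cc_nonneg hv),
      Real.norm_of_nonneg (dd_nonneg v), Complex.norm_ofNat]
    have := cc_nonneg hv
    have := dd_nonneg v
    gcongr
  have h4 := cc_le hv
  have h5 := dd_le hv
  have h6 := cc_le_one v
  have h7 := dd_le_one v
  constructor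
  · refine h3.trans ?_
    nlinarith
  · refine h3.trans ?_
    nlinarith

theorem continuous_ph (z w : ℂ) : Continuous fun v => ph v z w := by
  unfold ph
  exact ((continuous_ofReal.comp continuous_cc).mul continuous_const).add
    ((continuous_ofReal.comp continuous_dd).mul continuous_const)

theorem continuous_gg (z w : ℂ) : Continuous fun v => gg v z w := by
  unfold gg
  exact (continuous_ofReal.comp continuous_rr).mul (continuous_exp.comp (continuous_ph z w).neg)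

theorem continuous_qq (z w : ℂ) : Continuous fun v => qq v z w := by
  unfold qq
  exact ((continuous_ofReal.comp continuous_cc).mul continuous_const).sub
    ((continuous_const.mul (continuous_ofReal.comp continuous_dd)).mul continuous_const)

end

end Pool.Agent.Lib.MP_364e81_gt
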