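import Pool.Agent.Lib.MP_364e81_gt.Asym

set_option autoImplicit false

/-!
The limit of `z B_z / B` at infinity.
-/

namespace Pool.Agent.Lib.MP_364e81_gt

open Complex MeasureTheory Filter Topology Set ComplexConjugate

noncomputable section

/-- The kernel of `z B_z` on the diagonal. -/
def HH (v : ℝ) (z : ℂ) : ℂ := (cc v * normSq z + 2 * dd v * z ^ 2) * gg v z (conj z)

theorem gg_rot (v : ℝ) (z w : ℂ) : gg v (-I * w) (I * z) = gg v z w := by
  have : ph v (-I * w) (I * z) = ph v z w := by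
    unfold ph
    linear_combination (-(cc v : ℂ) * z * w + dd v * (w ^ 2 - z ^ 2)) * I_sq
  simp only [gg, this]

theorem z_Bz (ν z : ℂ) : z * Bz ν z (conj z) = ∫ v in Ioi (0 : ℝ), wt ν v * HH v z := by
  unfold Bz Bw
  rw [← mul_assoc, ← integral_const_mul]
  refine setIntegral_congr_fun measurableSet_Ioi fun v _ => ?_
  have h : z * conj z = normSq z := mul_conj z
  simp only [gg_rot, qq, HH]
  rw [← h]
  linear_combination (-(wt ν v) * gg v z (conj z) * (cc v * z * conj z +
    2 * dd v * z ^ 2)) * I_sq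

theorem z_Bz_diag (ν z : ℂ) : z * Bz ν z (conj z) =
    (RR z : ℂ) ^ ν * ∫ y in Ioi (0 : ℝ), wt ν y * HH (y / RR z) z := by
  rw [z_Bz]
  exact scale_wt (RR_pos z) fun v => HH v z

theorem norm_gg_conj (v : ℝ) (z : ℂ) :
    ‖gg v z (conj z)‖ = rr v * Real.exp (-(cc v * normSq z)) := by
  have h1 : (-ph v z (conj z)).re = -(cc v * normSq z) := by
    have h2 : z ^ 2 - conj z ^ 2 = ((2 * (z ^ 2).im : ℝ) : ℂ) * I := by
      rw [← map_pow, sub_conj]
    unfold ph
    rw [mul_conj, h2]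
    simp
  unfold gg
  rw [norm_mul, norm_exp, h1, norm_real, Real.norm_of_nonneg (rr_pos v).le]

theorem norm_HH_le {v : ℝ} (hv : 0 < v) (z : ℂ) : ‖HH v z‖ ≤ 2 * pp v z := by
  set X := cc v * normSq z with hX
  have hX0 : 0 ≤ X := mul_nonneg (cc_nonneg hv) (normSq_nonneg z)
  have h1 : ‖(cc v : ℂ) * normSq z + 2 * dd v * z ^ 2‖ ≤ X + v * X := by
    refine (norm_add_le _ _).trans ?_
    rw [norm_mul, norm_mul, norm_mul, norm_real, norm_real, norm_real,
      Real.norm_of_nonneg (cc_nonneg hv), Real.norm_of_nonneg (normSq_nonneg z),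
      Real.norm_of_nonneg (dd_nonneg v), Complex.norm_ofNat, norm_pow, ← normSq_eq_norm_sq,
      two_dd, hX, mul_assoc]
  have h2 : 0 ≤ rr v * Real.exp (-X) := mul_nonneg (rr_pos v).le (Real.exp_pos _).le
  unfold HH
  rw [norm_mul, norm_gg_conj]
  have h3 := mul_le_mul_of_nonneg_right h1 h2
  refine h3.trans ?_
  have h4 : (X + v * X) * (rr v * Real.exp (-X)) =
      (rr v + rr v * v) * (X * Real.exp (-X)) := by ring
  rw [h4]
  have h5 : rr v + rr v * v ≤ 2 := by linarith [rr_le_one v, rr_mul_le v]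
  have h6 := @xexp_le X
  have h7 : 0 ≤ X * Real.exp (-X) := mul_nonneg hX0 (Real.exp_pos _).le
  have h8 : (rr v + rr v * v) * (X * Real.exp (-X)) ≤ 2 * (X * Real.exp (-X)) :=
    mul_le_mul_of_nonneg_right h5 h7
  have h9 : rr v * Real.exp (-X) ≤ 1 * Real.exp (-X) :=
    mul_le_mul_of_nonneg_right (rr_le_one v) (Real.exp_pos _).le
  unfold pp
  rw [← hX]
  linarith

theorem norm_one_sub_gg_conj_le {v : ℝ} (hv : 0 < v) (z : ℂ) :
    ‖1 - gg v z (conj z)‖ ≤ 3 * pp v z := by
  obtain ⟨h1, h2, h3, h4⟩ := kernel_bounds hv z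
  refine (norm_le_abs_re_add_abs_im _).trans ?_
  rw [abs_of_nonneg (h1.trans h2)]
  linarith

/-! ### Pointwise limits -/

theorem tendsto_normSq : Tendsto (fun z : ℂ => normSq z) (cocompact ℂ) atTop := by
  have h1 : Tendsto (fun z : ℂ => ‖z‖) (cocompact ℂ) atTop := tendsto_norm_cocompact_atTop
  have h2 := h1.atTop_mul_atTop₀ h1
  refine h2.congr fun z => ?_
  rw [normSq_eq_norm_sq, sq]

theorem eventually_RR : ∀ᶠ z in cocompact ℂ, RR z = normSq z := by
  filter_upwards [tendsto_normSq.eventually_ge_atTop 1] with z hz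
  exact max_eq_right hz

theorem tendsto_RR : Tendsto RR (cocompact ℂ) atTop :=
  tendsto_normSq.congr' (eventually_RR.mono fun _ h => h.symm)

theorem tendsto_v (y : ℝ) : Tendsto (fun z => y / RR z) (cocompact ℂ) (𝓝 0) :=
  tendsto_RR.const_div_atTop y

theorem tendsto_cc (y : ℝ) :
    Tendsto (fun z => cc (y / RR z) * normSq z) (cocompact ℂ) (𝓝 (2 * y)) := by
  have h1 : Tendsto (fun z => 2 * y / (1 + (y / RR z) ^ 2)) (cocompact ℂ)
      (𝓝 (2 * y / (1 + 0 ^ 2))) :=
    tendsto_const_nhds.div (((tendsto_v y).pow 2).const_add 1) (by norm_num)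
  have h2 : 2 * y / (1 + 0 ^ 2) = 2 * y := by norm_num
  rw [h2] at h1
  refine h1.congr' ?_
  filter_upwards [eventually_RR] with z hz
  have hR := RR_pos z
  have h3 := one_add_sq_pos (y / RR z)
  unfold cc
  rw [← hz]
  field_simp

theorem tendsto_dd (y : ℝ) :
    Tendsto (fun z => dd (y / RR z) * normSq z) (cocompact ℂ) (𝓝 0) := by
  have h1 : Tendsto (fun z => y * (y / RR z) / (1 + (y / RR z) ^ 2)) (cocompact ℂ)
      (𝓝 (y * 0 / (1 + 0 ^ 2))) :=
    ((tendsto_v y).const_mul y).div (((tendsto_v y).pow 2).const_add 1) (by norm_num)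
  have h2 : y * 0 / (1 + 0 ^ 2) = 0 := by norm_num
  rw [h2] at h1
  refine h1.congr' ?_
  filter_upwards [eventually_RR] with z hz
  have hR := RR_pos z
  have h3 := one_add_sq_pos (y / RR z)
  unfold dd
  rw [← hz]
  field_simp

theorem tendsto_dd_mul (y : ℝ) {g : ℂ → ℂ} (hg : ∀ z, ‖g z‖ ≤ 2 * normSq z) :
    Tendsto (fun z => (dd (y / RR z) : ℂ) * g z) (cocompact ℂ) (𝓝 0) := by
  have h1 := (tendsto_dd y).const_mul 2
  rw [mul_zero] at h1
  refine squeeze_zero_norm (fun z => ?_) h1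
  rw [norm_mul, norm_real, Real.norm_of_nonneg (dd_nonneg _)]
  have := mul_le_mul_of_nonneg_left (hg z) (dd_nonneg (y / RR z))
  linarith

theorem tendsto_ph (y : ℝ) :
    Tendsto (fun z => ph (y / RR z) z (conj z)) (cocompact ℂ) (𝓝 (2 * y)) := by
  have h1 : Tendsto (fun z => ((cc (y / RR z) * normSq z : ℝ) : ℂ)) (cocompact ℂ)
      (𝓝 ((2 * y : ℝ) : ℂ)) := (continuous_ofReal.tendsto _).comp (tendsto_cc y)
  have h2 := tendsto_dd_mul y (g := fun z => z ^ 2 - conj z ^ 2) (fun z => by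
    refine (norm_sub_le _ _).trans ?_
    rw [norm_pow, norm_pow, norm_conj, normSq_eq_norm_sq]
    linarith)
  have h3 := h1.add h2
  rw [add_zero] at h3
  push_cast at h3
  refine h3.congr fun z => ?_
  unfold ph
  rw [mul_conj]

theorem tendsto_gg (y : ℝ) :
    Tendsto (fun z => gg (y / RR z) z (conj z)) (cocompact ℂ) (𝓝 (exp (-(2 * y)))) := by
  have h1 : Tendsto (fun z => rr (y / RR z)) (cocompact ℂ) (𝓝 (rr 0)) :=
    (continuous_rr.tendsto 0).comp (tendsto_v y)
  have h2 : Tendsto (fun z => (rr (y / RR z) : ℂ)) (cocompact ℂ) (𝓝 (rr 0 : ℂ)) :=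
    (continuous_ofReal.tendsto _).comp h1
  have h3 := h2.mul ((continuous_exp.tendsto _).comp (tendsto_ph y).neg)
  have h4 : rr 0 = 1 := by
    unfold rr
    norm_num
  rw [h4, ofReal_one, one_mul] at h3
  exact h3

theorem tendsto_HH (y : ℝ) :
    Tendsto (fun z => HH (y / RR z) z) (cocompact ℂ) (𝓝 (2 * y * exp (-(2 * y)))) := by
  have h1 : Tendsto (fun z => ((cc (y / RR z) * normSq z : ℝ) : ℂ)) (cocompact ℂ)
      (𝓝 ((2 * y : ℝ) : ℂ)) := (continuous_ofReal.tendsto _).comp (tendsto_cc y)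
  have h2 := tendsto_dd_mul y (g := fun z => 2 * z ^ 2) (fun z => by
    rw [norm_mul, norm_pow, normSq_eq_norm_sq, Complex.norm_ofNat])
  have h3 := (h1.add h2).mul (tendsto_gg y)
  rw [add_zero] at h3
  push_cast at h3
  refine h3.congr fun z => ?_
  unfold HH
  ring

/-! ### Limits of integrals -/

theorem tendsto_int {b : ℝ} {F : ℂ → ℝ → ℂ} {f : ℝ → ℂ} {C : ℝ}
    (hF : ∀ z, ContinuousOn (F z) (Ioi 0)) (hC : ∀ z, ∀ y : ℝ, 0 < y → ‖F z y‖ ≤ C * min y 1)
    (hlim : ∀ y : ℝ, 0 < y → Tendsto (fun z => F z y) (cocompact ℂ) (𝓝 (f y))) :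
    Tendsto (fun z => ∫ y in Ioi (0 : ℝ), wt (nu b) y * F z y) (cocompact ℂ)
      (𝓝 (∫ y in Ioi (0 : ℝ), wt (nu b) y * f y)) := by
  have hcg : (cocompact ℂ).IsCountablyGenerated := by
    rw [← Metric.cobounded_eq_cocompact, ← comap_norm_atTop]
    infer_instance
  refine tendsto_integral_filter_of_dominated_convergence
    (fun y => C * (y ^ (-(nu b).re - 1) * min y 1)) ?_ ?_
    ((integrable_base (nu_pos b) (nu_lt b)).const_mul C) ?_
  · exact Eventually.of_forall fun z =>
      ((continuousOn_wt (nu b)).mul (hF z)).aestronglyMeasurable measurableSet_Ioi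
  · refine Eventually.of_forall fun z => ?_
    rw [ae_restrict_iff' measurableSet_Ioi]
    exact ae_of_all _ fun y hy => norm_wt_mul_le hy (hC z y hy)
  · rw [ae_restrict_iff' measurableSet_Ioi]
    exact ae_of_all _ fun y hy => (hlim y hy).const_mul _

theorem continuous_HH (z : ℂ) : Continuous fun v => HH v z := by
  unfold HH
  exact (((continuous_ofReal.comp continuous_cc).mul continuous_const).add
    ((continuous_const.mul (continuous_ofReal.comp continuous_dd)).mul continuous_const)).mul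
    (continuous_gg z (conj z))

theorem limit_parts (b : ℝ) :
    ∫ y in Ioi (0 : ℝ), wt (nu b) y * (2 * y * exp (-(2 * y))) =
      nu b * ∫ y in Ioi (0 : ℝ), wt (nu b) y * (1 - exp (-(2 * y))) := by
  have hreal : ∀ v : ℝ, exp (-(2 * (v : ℂ))) = ((Real.exp (-(2 * v)) : ℝ) : ℂ) := by
    intro v
    push_cast
    rfl
  have hmin : ∀ v : ℝ, 0 < v → 1 - Real.exp (-(2 * v)) ≤ 2 * min v 1 := by
    intro v hv
    rw [mul_min_of_nonneg _ _ zero_le_two]
    apply le_min
    · have := Real.add_one_le_exp (-(2 * v))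
      linarith
    · have := Real.exp_pos (-(2 * v))
      linarith
  have h := integral_wt_parts (nu_pos b) (nu_lt b) (G := fun v : ℝ => 1 - exp (-(2 * (v : ℂ))))
    (G' := fun v : ℝ => 2 * exp (-(2 * (v : ℂ)))) (C := 2) ?_ ?_ ?_ ?_
  · rw [← h]
    refine setIntegral_congr_fun measurableSet_Ioi fun y _ => ?_
    ring
  · intro v _
    have h1 : HasDerivAt (fun v : ℝ => -(2 * (v : ℂ))) (-2) v := by
      refine ((hasDerivAt_id v).ofReal_comp.const_mul (2 : ℂ)).neg.congr_deriv ?_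
      simp
    refine (h1.cexp.const_sub 1).congr_deriv ?_
    ring
  · refine Continuous.continuousOn ?_
    fun_prop
  · intro v hv
    rw [hreal]
    have h1 : (1 : ℂ) - ((Real.exp (-(2 * v)) : ℝ) : ℂ) = ((1 - Real.exp (-(2 * v)) : ℝ) : ℂ) := by
      push_cast
      rfl
    have h2 : Real.exp (-(2 * v)) ≤ 1 := by
      rw [Real.exp_le_one_iff]
      linarith
    rw [h1, norm_real, Real.norm_of_nonneg (by linarith)]
    exact hmin v hv
  · intro v hv
    rw [hreal]
    have h1 : (v : ℂ) * (2 * ((Real.exp (-(2 * v)) : ℝ) : ℂ)) =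
        ((2 * v * Real.exp (-(2 * v)) : ℝ) : ℂ) := by
      push_cast
      ring
    rw [h1, norm_real, Real.norm_of_nonneg (by positivity)]
    have h2 := @xexp_le (2 * v)
    exact h2.trans (hmin v hv)

/-- `z B_z / B → ν` at infinity. -/
theorem ratio_limit {b : ℝ} (hb : 9 * |b| * C1 ≤ 1 / 10) :
    Tendsto (fun z => z * (Bz (nu b) z (conj z) / B (nu b) z (conj z))) (cocompact ℂ)
      (𝓝 (nu b)) := by
  have hd : ∀ z : ℂ, Continuous fun y : ℝ => y / RR z := fun z => continuous_id.div_const _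
  have t1 := tendsto_int (b := b) (F := fun z y => 1 - gg (y / RR z) z (conj z))
    (f := fun y : ℝ => 1 - exp (-(2 * (y : ℂ)))) (C := 9)
    (fun z => ((continuous_one_sub_gg z (conj z)).comp (hd z)).continuousOn)
    (fun z y hy => by
      have h1 := norm_one_sub_gg_conj_le (div_pos hy (RR_pos z)) z
      have h2 := pp_le hy z
      linarith)
    (fun y _ => (tendsto_gg y).const_sub 1)
  have t2 := tendsto_int (b := b) (F := fun z y => HH (y / RR z) z)
    (f := fun y : ℝ => 2 * (y : ℂ) * exp (-(2 * (y : ℂ)))) (C := 6)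
    (fun z => ((continuous_HH z).comp (hd z)).continuousOn)
    (fun z y hy => by
      have h1 := norm_HH_le (div_pos hy (RR_pos z)) z
      have h2 := pp_le hy z
      linarith)
    (fun y _ => tendsto_HH y)
  set c := ∫ y in Ioi (0 : ℝ), wt (nu b) y * (1 - exp (-(2 * (y : ℂ)))) with hc
  have hc0 : c ≠ 0 := by
    have h1 : Tendsto (fun z => (∫ y in Ioi (0 : ℝ), wt (nu b) y *
        (1 - gg (y / RR z) z (conj z))).re) (cocompact ℂ) (𝓝 c.re) :=
      (continuous_re.tendsto _).comp t1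
    have h2 : (1 : ℝ) / 10 ≤ c.re := by
      refine ge_of_tendsto h1 (Eventually.of_forall fun z => ?_)
      have := diag_lower b z
      linarith
    intro h
    rw [h, zero_re] at h2
    norm_num at h2
  rw [limit_parts, ← hc] at t2
  have t3 := t2.div t1 hc0
  rw [mul_div_cancel_right₀ _ hc0] at t3
  refine t3.congr fun z => ?_
  have hR : (RR z : ℂ) ^ (nu b) ≠ 0 := by
    rw [cpow_ne_zero_iff]
    left
    exact ofReal_ne_zero.mpr (RR_pos z).ne'
  rw [← mul_div_assoc, z_Bz_diag, B_diag, mul_div_mul_left _ _ hR]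
  rfl

end

end Pool.Agent.Lib.MP_364e81_gt
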