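import Pool.Agent.Lib.MP_364e81_gt.Bfun

set_option autoImplicit false

/-!
Lower bounds.
-/

namespace Pool.Agent.Lib.MP_364e81_gt

open Complex MeasureTheory Filter Topology Set ComplexConjugate

noncomputable section

/-- The exponent `3/4 + i b`. -/
def nu (b : ℝ) : ℂ := ⟨3 / 4, b⟩

theorem nu_re (b : ℝ) : (nu b).re = 3 / 4 := rfl

theorem nu_im (b : ℝ) : (nu b).im = b := rfl

theorem nu_pos (b : ℝ) : 0 < (nu b).re := by rw [nu_re]; norm_num

theorem nu_lt (b : ℝ) : (nu b).re < 1 := by rw [nu_re]; norm_num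

theorem abs_log_le {y : ℝ} (hy : 0 < y) :
    |Real.log y| ≤ 8 * (y ^ (1 / 8 : ℝ) + y ^ (-(1 / 8) : ℝ)) := by
  have h1 := Real.log_le_rpow_div hy.le (show (0 : ℝ) < 1 / 8 by norm_num)
  have h2 := Real.log_le_rpow_div (inv_pos.mpr hy).le (show (0 : ℝ) < 1 / 8 by norm_num)
  rw [Real.log_inv, Real.inv_rpow hy.le, ← Real.rpow_neg hy.le] at h2
  have h3 := Real.rpow_nonneg hy.le (1 / 8)
  have h4 := Real.rpow_nonneg hy.le (-(1 / 8))
  rw [abs_le]
  constructor <;> linarith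

theorem integrable_log :
    IntegrableOn (fun y : ℝ => y ^ (-(3 / 4) - 1 : ℝ) * min y 1 * |Real.log y|) (Ioi 0) := by
  have h1 := integrable_base (a := 5 / 8) (by norm_num) (by norm_num)
  have h2 := integrable_base (a := 7 / 8) (by norm_num) (by norm_num)
  have hc1 : ContinuousOn (fun y : ℝ => y ^ (-(3 / 4) - 1 : ℝ)) (Ioi 0) := fun y hy =>
    (Real.continuousAt_rpow_const y _ (Or.inl (ne_of_gt hy))).continuousWithinAt
  have hc2 : ContinuousOn (fun y : ℝ => |Real.log y|) (Ioi 0) := fun y hy =>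
    (Real.continuousAt_log (ne_of_gt hy)).abs.continuousWithinAt
  refine Integrable.mono' ((h1.add h2).const_mul 8)
    (((hc1.mul (continuous_id.min continuous_const).continuousOn).mul hc2).aestronglyMeasurable
      measurableSet_Ioi) ?_
  rw [ae_restrict_iff' measurableSet_Ioi]
  refine ae_of_all _ fun y hy => ?_
  have hy' : (0 : ℝ) < y := hy
  have hm : 0 ≤ min y 1 := le_min hy'.le zero_le_one
  have hr := Real.rpow_nonneg hy'.le (-(3 / 4) - 1)
  rw [Real.norm_of_nonneg (mul_nonneg (mul_nonneg hr hm) (abs_nonneg _))]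
  have h3 := mul_le_mul_of_nonneg_left (abs_log_le hy') (mul_nonneg hr hm)
  refine h3.trans (le_of_eq ?_)
  have e1 : y ^ (-(5 / 8) - 1 : ℝ) = y ^ (-(3 / 4) - 1 : ℝ) * y ^ (1 / 8 : ℝ) := by
    rw [← Real.rpow_add hy']
    norm_num
  have e2 : y ^ (-(7 / 8) - 1 : ℝ) = y ^ (-(3 / 4) - 1 : ℝ) * y ^ (-(1 / 8) : ℝ) := by
    rw [← Real.rpow_add hy']
    norm_num
  simp only [Pi.add_apply]
  rw [e1, e2]
  ring

/-- The constant in the lower bound. -/
def C1 : ℝ := ∫ y in Ioi (0 : ℝ), y ^ (-(3 / 4) - 1 : ℝ) * min y 1 * |Real.log y|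

theorem C1_nonneg : 0 ≤ C1 := by
  refine setIntegral_nonneg measurableSet_Ioi fun y hy => ?_
  have hy' : (0 : ℝ) < y := hy
  have hm : 0 ≤ min y 1 := le_min hy'.le zero_le_one
  have hr := Real.rpow_nonneg hy'.le (-(3 / 4) - 1)
  positivity

theorem one_sub_cos_le (x : ℝ) : 1 - Real.cos x ≤ |x| := by
  have h1 := Real.abs_sin_le_one
  rcases le_or_gt |x| 2 with h | h
  · have h2 := Real.one_sub_sq_div_two_le_cos (x := x)
    have h3 : x ^ 2 = |x| ^ 2 := (sq_abs x).symm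
    nlinarith [abs_nonneg x]
  · linarith [Real.neg_one_le_cos x]

theorem abs_sin_le' (x : ℝ) : |Real.sin x| ≤ |x| := Real.abs_sin_le_abs

/-- The weight with complex exponent. -/
theorem wt_nu {b y : ℝ} (hy : 0 < y) : wt (nu b) y =
    ((y ^ (-(3 / 4) - 1 : ℝ) : ℝ) : ℂ) * (Real.cos (b * Real.log y) -
      Real.sin (b * Real.log y) * I) := by
  have hy0 : (y : ℂ) ≠ 0 := ofReal_ne_zero.mpr hy.ne'
  have h1 : wt (nu b) y = (y : ℂ) ^ (((-(3 / 4) - 1 : ℝ) : ℂ) + (-(b * I))) := by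
    unfold wt
    congr 1
    apply Complex.ext <;> simp [nu]
  rw [h1, cpow_add _ _ hy0, ofReal_cpow hy.le]
  congr 1
  rw [cpow_def_of_ne_zero hy0, ← ofReal_log hy.le]
  have h2 : (Real.log y : ℂ) * (-(b * I)) = ((-(b * Real.log y) : ℝ) : ℂ) * I := by
    push_cast
    ring
  rw [h2, exp_mul_I, ← ofReal_cos, ← ofReal_sin, Real.cos_neg, Real.sin_neg]
  push_cast
  ring

theorem re_wt_mul {b y : ℝ} (hy : 0 < y) {q : ℂ} {p : ℝ} (hp : 0 ≤ p) (h1 : p ≤ q.re)
    (h2 : q.re ≤ 2 * p) (h3 : |q.im| ≤ p) :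
    y ^ (-(3 / 4) - 1 : ℝ) * (p - 3 * |b| * (p * |Real.log y|)) ≤ (wt (nu b) y * q).re := by
  have hr := Real.rpow_nonneg hy.le (-(3 / 4) - 1)
  rw [wt_nu hy, mul_assoc ((y ^ (-(3 / 4) - 1 : ℝ) : ℝ) : ℂ), re_ofReal_mul]
  refine mul_le_mul_of_nonneg_left ?_ hr
  set ψ := b * Real.log y with hψ
  have h4 := one_sub_cos_le ψ
  have h5 := abs_sin_le' ψ
  have h6 : |ψ| = |b| * |Real.log y| := abs_mul _ _
  have h7 : ((Real.cos ψ - Real.sin ψ * I : ℂ) * q).re =
      Real.cos ψ * q.re + Real.sin ψ * q.im := by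
    simp only [mul_re, sub_re, sub_im, mul_im, ofReal_re, ofReal_im, I_re, I_im]
    ring
  rw [h7]
  have h8 : -(|ψ| * p) ≤ Real.sin ψ * q.im := by
    have := neg_abs_le (Real.sin ψ * q.im)
    rw [abs_mul] at this
    have h9 := mul_le_mul h5 h3 (abs_nonneg _) (abs_nonneg _)
    linarith
  have h10 : (1 - Real.cos ψ) * q.re ≤ |ψ| * (2 * p) := by
    have h11 : 0 ≤ 1 - Real.cos ψ := by linarith [Real.cos_le_one ψ]
    exact mul_le_mul h4 h2 (hp.trans h1) (abs_nonneg _)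
  have h12 : 3 * |b| * (p * |Real.log y|) = 3 * |ψ| * p := by
    rw [h6]
    ring
  rw [h12]
  linarith

theorem integral_quarter : ∫ y in Ioc (0 : ℝ) 1, y ^ (-(3 / 4) - 1 : ℝ) * (y ^ 2 / 4) = 1 / 5 := by
  have h1 : ∫ y in Ioc (0 : ℝ) 1, y ^ (-(3 / 4) - 1 : ℝ) * (y ^ 2 / 4) =
      ∫ y in Ioc (0 : ℝ) 1, y ^ (1 / 4 : ℝ) * (1 / 4) := by
    refine setIntegral_congr_fun measurableSet_Ioc fun y hy => ?_
    have : y ^ (1 / 4 : ℝ) = y ^ (-(3 / 4) - 1 : ℝ) * y ^ 2 := by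
      rw [← Real.rpow_natCast, ← Real.rpow_add hy.1]
      norm_num
    rw [this]
    ring
  rw [h1, ← intervalIntegral.integral_of_le zero_le_one, intervalIntegral.integral_mul_const,
    integral_rpow (Or.inl (by norm_num))]
  norm_num

/-- The basic lower bound. -/
theorem lower_bound {b : ℝ} {q : ℝ → ℂ} {p : ℝ → ℝ} (hq : ContinuousOn q (Ioi 0))
    (hpc : ContinuousOn p (Ioi 0))
    (hp : ∀ y, 0 < y → 0 ≤ p y) (h1 : ∀ y, 0 < y → p y ≤ (q y).re)
    (h2 : ∀ y, 0 < y → (q y).re ≤ 2 * p y) (h3 : ∀ y, 0 < y → |(q y).im| ≤ p y)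
    (h4 : ∀ y, 0 < y → p y ≤ 3 * min y 1) (h5 : ∀ y, 0 < y → y ≤ 1 → y ^ 2 / 4 ≤ p y) :
    1 / 5 - 9 * |b| * C1 ≤ (∫ y in Ioi (0 : ℝ), wt (nu b) y * q y).re := by
  have hqn : ∀ y, 0 < y → ‖q y‖ ≤ 9 * min y 1 := by
    intro y hy
    refine (norm_le_abs_re_add_abs_im _).trans ?_
    have := h3 y hy
    have h6 := h2 y hy
    have h7 := h4 y hy
    rw [abs_of_nonneg ((hp y hy).trans (h1 y hy))]
    linarith
  have hI := integrable_wt_mul (nu_pos b) (nu_lt b) hq hqn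
  have hIp : IntegrableOn (fun y => y ^ (-(3 / 4) - 1 : ℝ) * p y) (Ioi 0) := by
    have hc1 : ContinuousOn (fun y : ℝ => y ^ (-(3 / 4) - 1 : ℝ)) (Ioi 0) := fun y hy =>
      (Real.continuousAt_rpow_const y _ (Or.inl (ne_of_gt hy))).continuousWithinAt
    refine Integrable.mono' ((integrable_base (a := 3 / 4) (by norm_num)
      (by norm_num)).const_mul 3) ((hc1.mul hpc).aestronglyMeasurable measurableSet_Ioi) ?_
    rw [ae_restrict_iff' measurableSet_Ioi]
    refine ae_of_all _ fun y hy => ?_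
    have hr := Real.rpow_nonneg (le_of_lt hy) (-(3 / 4) - 1)
    rw [Real.norm_of_nonneg (mul_nonneg hr (hp y hy))]
    have := mul_le_mul_of_nonneg_left (h4 y hy) hr
    linarith
  have hIl : IntegrableOn (fun y => y ^ (-(3 / 4) - 1 : ℝ) * (p y * |Real.log y|)) (Ioi 0) := by
    have hc1 : ContinuousOn (fun y : ℝ => y ^ (-(3 / 4) - 1 : ℝ)) (Ioi 0) := fun y hy =>
      (Real.continuousAt_rpow_const y _ (Or.inl (ne_of_gt hy))).continuousWithinAt
    have hc2 : ContinuousOn (fun y : ℝ => |Real.log y|) (Ioi 0) := fun y hy =>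
      (Real.continuousAt_log (ne_of_gt hy)).abs.continuousWithinAt
    refine Integrable.mono' (integrable_log.const_mul 3)
      ((hc1.mul (hpc.mul hc2)).aestronglyMeasurable measurableSet_Ioi) ?_
    rw [ae_restrict_iff' measurableSet_Ioi]
    refine ae_of_all _ fun y hy => ?_
    have hr := Real.rpow_nonneg (le_of_lt hy) (-(3 / 4) - 1)
    rw [Real.norm_of_nonneg (mul_nonneg hr (mul_nonneg (hp y hy) (abs_nonneg _)))]
    have h8 := mul_le_mul_of_nonneg_right (h4 y hy) (abs_nonneg (Real.log y))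
    have := mul_le_mul_of_nonneg_left h8 hr
    linarith
  have e1 : (∫ y in Ioi (0 : ℝ), wt (nu b) y * q y).re =
      ∫ y in Ioi (0 : ℝ), (wt (nu b) y * q y).re := by
    have := integral_re hI
    simpa using this.symm
  have e2 : ∫ y in Ioi (0 : ℝ), y ^ (-(3 / 4) - 1 : ℝ) * (p y - 3 * |b| * (p y * |Real.log y|)) =
      (∫ y in Ioi (0 : ℝ), y ^ (-(3 / 4) - 1 : ℝ) * p y) -
        3 * |b| * ∫ y in Ioi (0 : ℝ), y ^ (-(3 / 4) - 1 : ℝ) * (p y * |Real.log y|) := by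
    rw [← integral_const_mul, ← integral_sub hIp (hIl.const_mul _)]
    refine setIntegral_congr_fun measurableSet_Ioi fun y _ => ?_
    ring
  have e3 : ∫ y in Ioi (0 : ℝ), y ^ (-(3 / 4) - 1 : ℝ) * (p y - 3 * |b| * (p y * |Real.log y|)) ≤
      ∫ y in Ioi (0 : ℝ), (wt (nu b) y * q y).re := by
    refine setIntegral_mono_on ?_ hI.re measurableSet_Ioi fun y hy =>
      re_wt_mul hy (hp y hy) (h1 y hy) (h2 y hy) (h3 y hy)
    have := hIp.sub (hIl.const_mul (3 * |b|))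
    refine this.congr_fun (fun y _ => ?_) measurableSet_Ioi
    simp only [Pi.sub_apply]
    ring
  have e4 : (1 : ℝ) / 5 ≤ ∫ y in Ioi (0 : ℝ), y ^ (-(3 / 4) - 1 : ℝ) * p y := by
    rw [← integral_quarter]
    have h6 : ∫ y in Ioc (0 : ℝ) 1, y ^ (-(3 / 4) - 1 : ℝ) * (y ^ 2 / 4) ≤
        ∫ y in Ioc (0 : ℝ) 1, y ^ (-(3 / 4) - 1 : ℝ) * p y := by
      refine setIntegral_mono_on ?_ (hIp.mono_set Ioc_subset_Ioi_self) measurableSet_Ioc
        fun y hy => ?_
      · by_contra hcon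
        have := integral_undef hcon
        rw [integral_quarter] at this
        norm_num at this
      · exact mul_le_mul_of_nonneg_left (h5 y hy.1 hy.2) (Real.rpow_nonneg hy.1.le _)
    refine h6.trans (setIntegral_mono_set hIp ?_ ?_)
    · rw [EventuallyLE, ae_restrict_iff' measurableSet_Ioi]
      exact ae_of_all _ fun y hy => mul_nonneg (Real.rpow_nonneg (le_of_lt hy) _) (hp y hy)
    · exact LE.le.eventuallyLE Ioc_subset_Ioi_self
  have e5 : ∫ y in Ioi (0 : ℝ), y ^ (-(3 / 4) - 1 : ℝ) * (p y * |Real.log y|) ≤ 3 * C1 := by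
    unfold C1
    rw [← integral_const_mul]
    refine setIntegral_mono_on hIl (integrable_log.const_mul 3) measurableSet_Ioi fun y hy => ?_
    have hr := Real.rpow_nonneg (le_of_lt hy) (-(3 / 4) - 1)
    have h8 := mul_le_mul_of_nonneg_right (h4 y hy) (abs_nonneg (Real.log y))
    have := mul_le_mul_of_nonneg_left h8 hr
    linarith
  have e6 := mul_le_mul_of_nonneg_left e5 (show 0 ≤ 3 * |b| by positivity)
  rw [e1]
  linarith

end

end Pool.Agent.Lib.MP_364e81_gt
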