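import Pool.Agent.Lib.MP_364e81_gt.RankTwo

set_option autoImplicit false

/-!
The spinors of the example.
-/

namespace Pool.Agent.Lib.MP_364e81_gt

open Complex MeasureTheory Filter Topology Set ComplexConjugate

noncomputable section

theorem IsSolZ.spinor0 {ν : ℂ} {f f1 : ℂ → ℂ} (h : IsSolZ ν f f1) (z : ℂ) :
    HasDerivAt (fun z => exp (z ^ 2 / 2) * f z) (exp (z ^ 2 / 2) * (f1 z + z * f z)) z := by
  have h1 : HasDerivAt (fun z : ℂ => z ^ 2 / 2) z z := by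
    refine ((hasDerivAt_pow 2 z).div_const 2).congr_deriv ?_
    norm_num
  refine (h1.cexp.mul (h.d0 z)).congr_deriv ?_
  ring

theorem IsSolZ.spinor1 {ν : ℂ} {f f1 : ℂ → ℂ} (h : IsSolZ ν f f1) (z : ℂ) :
    HasDerivAt (fun z => exp (z ^ 2 / 2) * (f1 z + z * f z))
      ((z ^ 2 + (2 * ν + 1)) * (exp (z ^ 2 / 2) * f z)) z := by
  have h1 : HasDerivAt (fun z : ℂ => z ^ 2 / 2) z z := by
    refine ((hasDerivAt_pow 2 z).div_const 2).congr_deriv ?_
    norm_num
  have h2 := h1.cexp.mul ((h.d1 z).add ((hasDerivAt_id z).mul (h.d0 z)))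
  refine h2.congr_deriv ?_
  simp only [Pi.add_apply, Pi.mul_apply, id]
  ring

theorem IsSolW.spinor0 {ν : ℂ} {g g1 : ℂ → ℂ} (h : IsSolW ν g g1) (w : ℂ) :
    HasDerivAt (fun w => exp (-(w ^ 2 / 2)) * g w) (exp (-(w ^ 2 / 2)) * (g1 w - w * g w)) w := by
  have h1 : HasDerivAt (fun w : ℂ => -(w ^ 2 / 2)) (-w) w := by
    refine ((hasDerivAt_pow 2 w).div_const 2).neg.congr_deriv ?_
    norm_num
  refine (h1.cexp.mul (h.d0 w)).congr_deriv ?_
  ring

theorem IsSolW.spinor1 {ν : ℂ} {g g1 : ℂ → ℂ} (h : IsSolW ν g g1) (w : ℂ) :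
    HasDerivAt (fun w => exp (-(w ^ 2 / 2)) * (g1 w - w * g w))
      ((w ^ 2 - (2 * ν + 1)) * (exp (-(w ^ 2 / 2)) * g w)) w := by
  have h1 : HasDerivAt (fun w : ℂ => -(w ^ 2 / 2)) (-w) w := by
    refine ((hasDerivAt_pow 2 w).div_const 2).neg.congr_deriv ?_
    norm_num
  have h2 := h1.cexp.mul ((h.d1 w).sub ((hasDerivAt_id w).mul (h.d0 w)))
  refine h2.congr_deriv ?_
  simp only [Pi.sub_apply, Pi.mul_apply, id]
  ring

theorem hasDerivAt_conj' {f : ℂ → ℂ} {f1 : ℂ → ℂ} (h : ∀ w, HasDerivAt f (f1 w) w) (z : ℂ) :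
    HasDerivAt (fun z => conj (f (conj z))) (conj (f1 (conj z))) z := by
  have h1 := (h (conj z)).conj_conj
  rw [conj_conj] at h1
  exact h1

/-- The spinors attached to a factorisation of `B`. -/
theorem exists_spinors {ν : ℂ} (h0 : 0 < ν.re) (h1 : ν.re < 1) (hB : B ν 0 0 ≠ 0)
    (hBw : Bw ν 1 0 ≠ 0) (hne : ∀ z, B ν z (conj z) ≠ 0) :
    ∃ S : Spinors, ∀ z, S.E z = exp ((z ^ 2 - conj z ^ 2) / 2) * B ν z (conj z) ∧
      S.Ez z = exp ((z ^ 2 - conj z ^ 2) / 2) * (z * B ν z (conj z) + Bz ν z (conj z)) := by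
  obtain ⟨S1, S1', S2, S2', T1, T1', T2, T2', hS1, hS2, hT1, hT2, hf⟩ :=
    rank_two h0 h1 hB hBw
  have hz : ∀ z w, Bz ν z w = S1' z * T1 w + S2' z * T2 w := by
    intro z w
    have e1 := (isSolZ_B h0 h1 w).d0 z
    have e2 : HasDerivAt (fun z => B ν z w) (S1' z * T1 w + S2' z * T2 w) z := by
      rw [show (fun z => B ν z w) = fun z => S1 z * T1 w + S2 z * T2 w from
        funext fun z => hf z w]
      exact ((hS1.d0 z).mul_const _).add ((hS2.d0 z).mul_const _)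
    exact e1.unique e2
  have hexp : ∀ z : ℂ, exp (z ^ 2 / 2) * exp (-(conj z ^ 2 / 2)) =
      exp ((z ^ 2 - conj z ^ 2) / 2) := by
    intro z
    rw [← exp_add]
    ring_nf
  have hlam : (2 * ν + 1) + conj (2 * ν + 1) ≠ 0 := by
    rw [add_conj]
    simp only [add_re, mul_re, re_ofNat, im_ofNat, zero_mul, sub_zero, one_re, ne_eq,
      ofReal_eq_zero, mul_eq_zero, OfNat.ofNat_ne_zero, false_or]
    linarith
  have hE : ∀ z, exp (z ^ 2 / 2) * S1 z * (exp (-(conj z ^ 2 / 2)) * T1 (conj z)) -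
      -(exp (z ^ 2 / 2) * S2 z) * (exp (-(conj z ^ 2 / 2)) * T2 (conj z)) =
      exp ((z ^ 2 - conj z ^ 2) / 2) * B ν z (conj z) := by
    intro z
    rw [hf, ← hexp]
    ring
  refine ⟨⟨2 * ν + 1, ![fun z => exp (z ^ 2 / 2) * S1 z, fun z => -(exp (z ^ 2 / 2) * S2 z)],
    ![fun z => exp (z ^ 2 / 2) * (S1' z + z * S1 z),
      fun z => -(exp (z ^ 2 / 2) * (S2' z + z * S2 z))],
    ![fun z => conj (exp (-(conj z ^ 2 / 2)) * T2 (conj z)),
      fun z => conj (exp (-(conj z ^ 2 / 2)) * T1 (conj z))],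
    ![fun z => conj (exp (-(conj z ^ 2 / 2)) * (T2' (conj z) - conj z * T2 (conj z))),
      fun z => conj (exp (-(conj z ^ 2 / 2)) * (T1' (conj z) - conj z * T1 (conj z)))],
    ?_, ?_, ?_, ?_, hlam, ?_⟩, fun z => ⟨?_, ?_⟩⟩
  · intro i z
    fin_cases i
    · exact hS1.spinor0 z
    · exact (hS2.spinor0 z).neg
  · intro i z
    fin_cases i
    · exact hS1.spinor1 z
    · refine (hS2.spinor1 z).neg.congr_deriv ?_
      simp
  · intro i z
    fin_cases i
    · exact hasDerivAt_conj' hT2.spinor0 z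
    · exact hasDerivAt_conj' hT1.spinor0 z
  · intro i z
    fin_cases i
    · refine (hasDerivAt_conj' hT2.spinor1 z).congr_deriv ?_
      simp
    · refine (hasDerivAt_conj' hT1.spinor1 z).congr_deriv ?_
      simp
  · intro z
    simp only [Matrix.cons_val_zero, Matrix.cons_val_one, conj_conj]
    rw [hE]
    exact mul_ne_zero (exp_ne_zero _) (hne z)
  · simp only [Spinors.E, Matrix.cons_val_zero, Matrix.cons_val_one, conj_conj]
    exact hE z
  · simp only [Spinors.Ez, Matrix.cons_val_zero, Matrix.cons_val_one, conj_conj]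
    rw [hf, hz, ← hexp]
    ring

end

end Pool.Agent.Lib.MP_364e81_gt
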