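import Pool.Agent.Lib.MP_364e81_gt.Limit
import Pool.Agent.Lib.MP_364e81_gt.Spin
import Pool.Agent.Lib.MP_364e81_gt.Normal
import Pool.Agent.Lib.MP_364e81_gt.Flux

set_option autoImplicit false

/-!
The example.
-/

namespace Pool.Agent.Lib.MP_364e81_gt

open Complex MeasureTheory Filter Topology Set ComplexConjugate

noncomputable section

theorem norm_phase (z : ℂ) : ‖exp ((z ^ 2 - conj z ^ 2) / 2)‖ = 1 := by
  have h2 : (z ^ 2 - conj z ^ 2) / 2 = (((z ^ 2).im : ℝ) : ℂ) * I := by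
    rw [← map_pow, sub_conj]
    push_cast
    ring
  rw [h2, norm_exp_ofReal_mul_I]

namespace Spinors

variable (S : Spinors)

theorem hasW_flux (z : ℂ) : HasW (fun z => S.Ez z / S.E z - z)
    (((z ^ 2 + S.lam) * S.E z * S.E z - S.Ez z * S.Ez z) / S.E z ^ 2 - 1)
    (S.kap z / S.E z ^ 2) z := by
  have h1 := ((S.hasW_Ez z).div (S.hasW_E z) (S.hE z)).sub (HasW.of_hasDerivAt (hasDerivAt_id z))
  have h2 : S.kap z / S.E z ^ 2 = (S.Ezb z * S.E z - S.Ez z * S.Eb z) / S.E z ^ 2 - 0 := by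
    rw [← kap_eq]
    ring
  rw [h2]
  exact h1

/-- A surface with `|E|` bounded below is complete. -/
theorem isComplete {c : ℝ} (hc : 0 < c) (h : ∀ z, c ≤ ‖S.E z‖) : IsCompleteSurface S.x := by
  intro γ hγ hlim
  have hγc : Continuous γ := hγ.continuous
  have hγd : Continuous (deriv γ) := hγ.continuous_deriv le_rfl
  have hE : Continuous S.E := S.smooth_E.continuous
  have hs : Continuous (speed S.x γ) := by
    rw [show speed S.x γ = fun t => ‖S.E (γ t)‖ * ‖deriv γ t‖ from funext (S.speed_x γ)]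
    exact (hE.comp hγc).norm.mul hγd.norm
  have h1 : ∀ T : ℝ, 0 ≤ T → c * (‖γ T‖ - ‖γ 0‖) ≤ ∫ t in (0 : ℝ)..T, speed S.x γ t := by
    intro T hT
    have h2 : ∫ t in (0 : ℝ)..T, deriv γ t = γ T - γ 0 :=
      intervalIntegral.integral_deriv_eq_sub
        (fun t _ => (hγ.differentiable one_ne_zero) t) (hγd.intervalIntegrable _ _)
    have h3 : ‖γ T‖ - ‖γ 0‖ ≤ ∫ t in (0 : ℝ)..T, ‖deriv γ t‖ := by
      refine (norm_sub_norm_le _ _).trans ?_
      rw [← h2]
      exact intervalIntegral.norm_integral_le_integral_norm hT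
    have h4 : ∫ t in (0 : ℝ)..T, c * ‖deriv γ t‖ ≤ ∫ t in (0 : ℝ)..T, speed S.x γ t := by
      refine intervalIntegral.integral_mono_on hT
        ((continuous_const.mul hγd.norm).intervalIntegrable _ _) (hs.intervalIntegrable _ _)
        fun t _ => ?_
      rw [speed_x]
      exact mul_le_mul_of_nonneg_right (h _) (norm_nonneg _)
    rw [intervalIntegral.integral_const_mul] at h4
    have h5 := mul_le_mul_of_nonneg_left h3 hc.le
    linarith
  have h6 : Tendsto (fun T => c * (‖γ T‖ - ‖γ 0‖)) atTop atTop := by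
    have h7 : Tendsto (fun T => ‖γ T‖) atTop atTop := tendsto_norm_cocompact_atTop.comp hlim
    exact (tendsto_atTop_add_const_right _ (-‖γ 0‖) h7).const_mul_atTop hc
  refine tendsto_atTop_mono' atTop ?_ h6
  filter_upwards [eventually_ge_atTop 0] with T hT
  exact h1 T hT

/-- Total curvatures from the flux. -/
theorem totals {ν : ℂ} {c : ℝ} (hc : 0 < c) (h : ∀ z, c * RR z ^ (3 / 4 : ℝ) ≤ ‖S.E z‖)
    (hlim : Tendsto (fun z => z * (S.Ez z / S.E z - z)) (cocompact ℂ) (𝓝 ν)) :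
    Integrable (fun z => |gaussK S.x z| * area S.x z) ∧
    Integrable (fun z => |normalK S.x S.e3 S.e4 z| * area S.x z) ∧
    ∫ z, normalK S.x S.e3 S.e4 z * area S.x z = 4 * Real.pi * ν.im := by
  have hE0 : ∀ z, S.E z ≠ 0 := S.hE
  have hEc : Continuous S.E := S.smooth_E.continuous
  have hfc : Continuous fun z => S.kap z / S.E z ^ 2 := by
    rw [show (fun z => S.kap z / S.E z ^ 2) = fun z => S.kap 0 / S.E z ^ 2 from
      funext fun z => by rw [kap_const]]
    exact continuous_const.div (hEc.pow 2) fun z => pow_ne_zero 2 (hE0 z)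
  have hint : Integrable fun z => S.kap z / S.E z ^ 2 := by
    have hI : Integrable fun z : ℂ => (1 + ‖z‖ ^ 2) ^ (-(3 : ℝ) / 2) :=
      integrable_rpow_neg_one_add_norm_sq (by
        rw [Complex.finrank_real_complex]
        norm_num)
    refine Integrable.mono' (hI.const_mul (‖S.kap 0‖ * ((c ^ 2)⁻¹ * 2 ^ (3 / 2 : ℝ))))
      hfc.aestronglyMeasurable (ae_of_all _ fun z => ?_)
    have hR := RR_pos z
    rw [kap_const, norm_div, norm_pow, div_eq_mul_inv, mul_assoc]
    refine mul_le_mul_of_nonneg_left ?_ (norm_nonneg _)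
    have h1 : (c * RR z ^ (3 / 4 : ℝ)) ^ 2 ≤ ‖S.E z‖ ^ 2 := by
      have := h z
      gcongr
    have h2 : (c * RR z ^ (3 / 4 : ℝ)) ^ 2 = c ^ 2 * RR z ^ (3 / 2 : ℝ) := by
      rw [mul_pow, ← Real.rpow_natCast (RR z ^ (3 / 4 : ℝ)) 2, ← Real.rpow_mul hR.le]
      norm_num
    have h3 : (1 + ‖z‖ ^ 2) / 2 ≤ RR z := by
      have h4 := one_le_RR z
      have h5 : normSq z ≤ RR z := le_max_right _ _
      rw [normSq_eq_norm_sq] at h5
      linarith
    have h6 : ((1 + ‖z‖ ^ 2) / 2) ^ (3 / 2 : ℝ) ≤ RR z ^ (3 / 2 : ℝ) :=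
      Real.rpow_le_rpow (by positivity) h3 (by norm_num)
    have h7 : c ^ 2 * ((1 + ‖z‖ ^ 2) / 2) ^ (3 / 2 : ℝ) ≤ ‖S.E z‖ ^ 2 := by
      rw [h2] at h1
      have := mul_le_mul_of_nonneg_left h6 (sq_nonneg c)
      linarith
    have h8 : (‖S.E z‖ ^ 2)⁻¹ ≤ (c ^ 2 * ((1 + ‖z‖ ^ 2) / 2) ^ (3 / 2 : ℝ))⁻¹ :=
      inv_anti₀ (by positivity) h7
    refine h8.trans (le_of_eq ?_)
    rw [mul_inv, Real.div_rpow (by positivity) (by norm_num), inv_div, neg_div,
      Real.rpow_neg (by positivity)]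
    ring
  have hfl := flux (fun z => S.hasW_flux z) hint hlim
  have hA : ∀ z, 0 ≤ area S.x z := fun z => by
    rw [area_x]
    exact (S.N_pos z).le
  refine ⟨?_, ?_, ?_⟩
  · refine (hint.re.abs.const_mul 4).congr (ae_of_all _ fun z => ?_)
    simp only
    rw [← abs_of_nonneg (hA z), ← abs_mul, gaussK_area, abs_mul]
    norm_num
  · refine (hint.im.abs.const_mul 4).congr (ae_of_all _ fun z => ?_)
    simp only
    rw [← abs_of_nonneg (hA z), ← abs_mul, normalK_area, abs_mul]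
    norm_num
  · have h1 : ∫ z, normalK S.x S.e3 S.e4 z * area S.x z =
        ∫ z, 4 * (S.kap z / S.E z ^ 2).im :=
      integral_congr_ae (ae_of_all _ fun z => S.normalK_area z)
    have h2 : ∫ z, (S.kap z / S.E z ^ 2).im = (∫ z, S.kap z / S.E z ^ 2).im := by
      have := integral_im hint
      simpa using this
    rw [h1, integral_const_mul, h2, hfl, im_ofReal_mul]
    ring

end Spinors

/-- The example. -/
theorem exists_surface : ∃ (S : Spinors) (b : ℝ), 0 < b ∧ IsCompleteSurface S.x ∧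
    Integrable (fun z => |gaussK S.x z| * area S.x z) ∧
    Integrable (fun z => |normalK S.x S.e3 S.e4 z| * area S.x z) ∧
    ∫ z, normalK S.x S.e3 S.e4 z * area S.x z = 4 * Real.pi * b := by
  have hC := C1_nonneg
  set b : ℝ := 1 / (90 * (C1 + 1)) with hbd
  have hb0 : 0 < b := by positivity
  have hb : 9 * |b| * C1 ≤ 1 / 10 := by
    rw [abs_of_pos hb0, hbd]
    rw [mul_one_div, div_mul_eq_mul_div, div_le_div_iff₀ (by positivity) (by norm_num)]
    nlinarith
  have hne : ∀ z, B (nu b) z (conj z) ≠ 0 := fun z h => by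
    have h1 := norm_B_diag hb z
    rw [h, norm_zero] at h1
    have := Real.rpow_pos_of_pos (RR_pos z) (3 / 4)
    linarith
  have hB0 : B (nu b) 0 0 ≠ 0 := by
    have := hne 0
    rwa [map_zero] at this
  obtain ⟨S, hS⟩ := exists_spinors (nu_pos b) (nu_lt b) hB0 (Bw_one_ne_zero hb) hne
  have hnorm : ∀ z, 1 / 10 * RR z ^ (3 / 4 : ℝ) ≤ ‖S.E z‖ := by
    intro z
    rw [(hS z).1, norm_mul, norm_phase, one_mul]
    have := norm_B_diag hb z
    linarith
  have hlim : Tendsto (fun z => z * (S.Ez z / S.E z - z)) (cocompact ℂ) (𝓝 (nu b)) := by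
    refine (ratio_limit hb).congr fun z => ?_
    have h1 := hne z
    have h2 := exp_ne_zero ((z ^ 2 - conj z ^ 2) / 2)
    rw [(hS z).1, (hS z).2, mul_div_mul_left _ _ h2]
    congr 1
    field_simp
    ring
  obtain ⟨t1, t2, t3⟩ := S.totals (c := 1 / 10) (by norm_num) hnorm hlim
  refine ⟨S, b, hb0, S.isComplete (c := 1 / 10) (by norm_num) fun z => ?_, t1, t2, t3⟩
  refine le_trans ?_ (hnorm z)
  have : 1 ≤ RR z ^ (3 / 4 : ℝ) := Real.one_le_rpow (one_le_RR z) (by norm_num)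
  linarith

end

end Pool.Agent.Lib.MP_364e81_gt
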