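import Mathlib

set_option autoImplicit false

/-!
Integrals over `(0, ∞)` against the weight `v ^ (-ν - 1)`.
-/

namespace Pool.Agent.Lib.MP_364e81_gt

open Complex MeasureTheory Filter Topology Set

noncomputable section

/-- The weight `v ^ (-ν - 1)`. -/
def wt (ν : ℂ) (v : ℝ) : ℂ := (v : ℂ) ^ (-ν - 1)

theorem norm_wt (ν : ℂ) {v : ℝ} (hv : 0 < v) : ‖wt ν v‖ = v ^ (-ν.re - 1) := by
  unfold wt
  rw [norm_cpow_eq_rpow_re_of_pos hv]
  simp

theorem continuousOn_wt (ν : ℂ) : ContinuousOn (wt ν) (Ioi 0) := by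
  intro v hv
  have h1 : ContinuousAt (fun v : ℝ => (v : ℂ)) v := continuous_ofReal.continuousAt
  have h2 : ContinuousAt (fun v : ℝ => (v : ℂ) ^ (-ν - 1)) v :=
    h1.cpow continuousAt_const (by
      rw [mem_slitPlane_iff]
      left
      simpa using hv)
  exact h2.continuousWithinAt

theorem integrable_base {a : ℝ} (h0 : 0 < a) (h1 : a < 1) :
    IntegrableOn (fun v : ℝ => v ^ (-a - 1) * min v 1) (Ioi 0) := by
  rw [← Ioc_union_Ioi_eq_Ioi (zero_le_one' ℝ), integrableOn_union]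
  constructor
  · have h : IntegrableOn (fun v : ℝ => v ^ (-a)) (Ioc 0 1) :=
      (intervalIntegrable_iff_integrableOn_Ioc_of_le zero_le_one).1
        (intervalIntegral.intervalIntegrable_rpow' (by linarith))
    refine h.congr_fun (fun v hv => ?_) measurableSet_Ioc
    simp only
    rw [min_eq_left hv.2]
    have : v ^ (-a) = v ^ (-a - 1 + 1) := by ring_nf
    rw [this, Real.rpow_add_one hv.1.ne']
  · have h : IntegrableOn (fun v : ℝ => v ^ (-a - 1)) (Ioi 1) :=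
      integrableOn_Ioi_rpow_of_lt (by linarith) one_pos
    refine h.congr_fun (fun v hv => ?_) measurableSet_Ioi
    simp only
    rw [min_eq_right (le_of_lt hv), mul_one]

theorem norm_wt_mul_le {ν : ℂ} {C v : ℝ} {x : ℂ} (hv : 0 < v) (hx : ‖x‖ ≤ C * min v 1) :
    ‖wt ν v * x‖ ≤ C * (v ^ (-ν.re - 1) * min v 1) := by
  rw [norm_mul, norm_wt ν hv]
  have h := mul_le_mul_of_nonneg_left hx (Real.rpow_nonneg hv.le (-ν.re - 1))
  linarith

theorem integrable_wt_mul {ν : ℂ} (h0 : 0 < ν.re) (h1 : ν.re < 1) {F : ℝ → ℂ}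
    (hF : ContinuousOn F (Ioi 0)) {C : ℝ} (hC : ∀ v : ℝ, 0 < v → ‖F v‖ ≤ C * min v 1) :
    IntegrableOn (fun v => wt ν v * F v) (Ioi 0) := by
  refine Integrable.mono' ((integrable_base h0 h1).const_mul C)
    (((continuousOn_wt ν).mul hF).aestronglyMeasurable measurableSet_Ioi) ?_
  rw [ae_restrict_iff' measurableSet_Ioi]
  exact ae_of_all _ fun v hv => norm_wt_mul_le hv (hC v hv)

/-- Differentiation under the integral sign. -/
theorem hasDerivAt_wt {ν : ℂ} (h0 : 0 < ν.re) (h1 : ν.re < 1) {F F' : ℂ → ℝ → ℂ} {w₀ : ℂ}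
    (hF : ∀ w, ContinuousOn (F w) (Ioi 0)) (hF' : ContinuousOn (F' w₀) (Ioi 0)) {C : ℝ}
    (hC : ∀ v : ℝ, 0 < v → ‖F w₀ v‖ ≤ C * min v 1)
    (hC' : ∀ w ∈ Metric.ball w₀ 1, ∀ v : ℝ, 0 < v → ‖F' w v‖ ≤ C * min v 1)
    (hd : ∀ w, ∀ v : ℝ, 0 < v → HasDerivAt (fun w => F w v) (F' w v) w) :
    HasDerivAt (fun w => ∫ v in Ioi (0 : ℝ), wt ν v * F w v)
      (∫ v in Ioi (0 : ℝ), wt ν v * F' w₀ v) w₀ := by
  refine (hasDerivAt_integral_of_dominated_loc_of_deriv_le (s := Metric.ball w₀ 1)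
    (bound := fun v => C * (v ^ (-ν.re - 1) * min v 1)) (F' := fun w v => wt ν v * F' w v)
    (Metric.ball_mem_nhds w₀ one_pos) (Eventually.of_forall fun w =>
      ((continuousOn_wt ν).mul (hF w)).aestronglyMeasurable measurableSet_Ioi)
    (integrable_wt_mul h0 h1 (hF w₀) hC)
    (((continuousOn_wt ν).mul hF').aestronglyMeasurable measurableSet_Ioi) ?_
    ((integrable_base h0 h1).const_mul C) ?_).2
  · rw [ae_restrict_iff' measurableSet_Ioi]
    exact ae_of_all _ fun v hv w hw => norm_wt_mul_le hv (hC' w hw v hv)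
  · rw [ae_restrict_iff' measurableSet_Ioi]
    exact ae_of_all _ fun v hv w _ => (hd w v hv).const_mul (wt ν v)

/-- Integration by parts. -/
theorem integral_wt_parts {ν : ℂ} (h0 : 0 < ν.re) (h1 : ν.re < 1) {G G' : ℝ → ℂ} {C : ℝ}
    (hG : ∀ v : ℝ, 0 < v → HasDerivAt G (G' v) v) (hG' : ContinuousOn G' (Ioi 0))
    (hC : ∀ v : ℝ, 0 < v → ‖G v‖ ≤ C * min v 1)
    (hC' : ∀ v : ℝ, 0 < v → ‖(v : ℂ) * G' v‖ ≤ C * min v 1) :
    ∫ v in Ioi (0 : ℝ), wt ν v * ((v : ℂ) * G' v) = ν * ∫ v in Ioi (0 : ℝ), wt ν v * G v := by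
  have hGc : ContinuousOn G (Ioi 0) := fun v hv => (hG v hv).continuousAt.continuousWithinAt
  have hvG' : ContinuousOn (fun v : ℝ => (v : ℂ) * G' v) (Ioi 0) :=
    continuous_ofReal.continuousOn.mul hG'
  have i1 := integrable_wt_mul h0 h1 hGc hC
  have i2 := integrable_wt_mul h0 h1 hvG' hC'
  have hν : -ν ≠ 0 := by
    intro h
    have : ν = 0 := by simpa using h
    rw [this] at h0
    simp at h0
  have hC0 : 0 ≤ C := by
    have := hC 1 one_pos
    rw [min_self, mul_one] at this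
    exact (norm_nonneg _).trans this
  have hnorm : ∀ v : ℝ, 0 < v → ‖(v : ℂ) ^ (-ν) * G v‖ ≤ C * (v ^ (-ν.re) * min v 1) := by
    intro v hv
    rw [norm_mul, norm_cpow_eq_rpow_re_of_pos hv, neg_re]
    have := mul_le_mul_of_nonneg_left (hC v hv) (Real.rpow_nonneg hv.le (-ν.re))
    linarith
  have hderiv : ∀ v ∈ Ioi (0 : ℝ), HasDerivAt (fun v : ℝ => (v : ℂ) ^ (-ν) * G v)
      (wt ν v * ((v : ℂ) * G' v) - ν * (wt ν v * G v)) v := by
    intro v hv
    have hv' : (0 : ℝ) < v := hv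
    have e1 : HasDerivAt (fun v : ℝ => (v : ℂ) ^ (-ν)) (-ν * (v : ℂ) ^ (-ν - 1)) v :=
      hasDerivAt_ofReal_cpow_const hv'.ne' hν
    have e2 := e1.mul (hG v hv')
    refine e2.congr_deriv ?_
    have e3 : (v : ℂ) ^ (-ν) = (v : ℂ) ^ (-ν - 1) * v := by
      have h := cpow_add (-ν - 1) 1 (ofReal_ne_zero.mpr hv'.ne')
      rw [cpow_one] at h
      rw [← h]
      ring_nf
    unfold wt
    rw [e3]
    ring
  have hcont : ContinuousWithinAt (fun v : ℝ => (v : ℂ) ^ (-ν) * G v) (Ici 0) 0 := by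
    rw [← continuousWithinAt_Ioi_iff_Ici, ContinuousWithinAt]
    have e0 : ((0 : ℝ) : ℂ) ^ (-ν) * G 0 = 0 := by
      rw [ofReal_zero, zero_cpow hν, zero_mul]
    rw [e0]
    have e1 : Tendsto (fun v : ℝ => C * v ^ (1 - ν.re)) (𝓝[>] 0) (𝓝 0) := by
      have : Tendsto (fun v : ℝ => C * v ^ (1 - ν.re)) (𝓝[>] 0) (𝓝 (C * 0 ^ (1 - ν.re))) :=
        ((Real.continuousAt_rpow_const 0 (1 - ν.re) (Or.inr (by linarith))).tendsto.mono_left
          nhdsWithin_le_nhds).const_mul C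
      rwa [Real.zero_rpow (by linarith), mul_zero] at this
    refine squeeze_zero_norm' ?_ e1
    filter_upwards [self_mem_nhdsWithin] with v hv
    refine (hnorm v hv).trans ?_
    have e2 : v ^ (1 - ν.re) = v ^ (-ν.re) * v := by
      rw [← Real.rpow_add_one (ne_of_gt hv)]
      ring_nf
    rw [e2]
    gcongr
    · exact Real.rpow_nonneg (le_of_lt hv) _
    · exact min_le_left _ _
  have htop : Tendsto (fun v : ℝ => (v : ℂ) ^ (-ν) * G v) atTop (𝓝 0) := by
    have e1 : Tendsto (fun v : ℝ => C * v ^ (-ν.re)) atTop (𝓝 0) := by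
      have := (tendsto_rpow_neg_atTop h0).const_mul C
      rwa [mul_zero] at this
    refine squeeze_zero_norm' ?_ e1
    filter_upwards [eventually_gt_atTop 0] with v hv
    refine (hnorm v hv).trans ?_
    have : v ^ (-ν.re) * min v 1 ≤ v ^ (-ν.re) * 1 := by
      gcongr
      exact min_le_right _ _
    rw [mul_one] at this
    gcongr
  have key := integral_Ioi_of_hasDerivAt_of_tendsto hcont hderiv (i2.sub (i1.const_mul ν)) htop
  rw [integral_sub i2 (i1.const_mul ν), integral_const_mul] at key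
  simp only [ofReal_zero, zero_cpow hν, zero_mul, sub_zero] at key
  exact sub_eq_zero.mp key

end

end Pool.Agent.Lib.MP_364e81_gt
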