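import Pool.Agent.Lib.MP_364e81_gt.Defs

set_option autoImplicit false

/-!
Wirtinger calculus.
-/

namespace Pool.Agent.Lib.MP_364e81_gt

open Complex MeasureTheory Filter Topology ComplexConjugate

/-- The real linear map `a dz + b dz̄`. -/
noncomputable def wlin (a b : ℂ) : ℂ →L[ℝ] ℂ :=
  a • (1 : ℂ →L[ℝ] ℂ) + b • (conjCLE : ℂ →L[ℝ] ℂ)

theorem wlin_apply (a b w : ℂ) : wlin a b w = a * w + b * conj w := by
  simp [wlin]

/-- The real derivative of `f` at `z` is `a dz + b dz̄`. -/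
def HasW (f : ℂ → ℂ) (a b z : ℂ) : Prop := HasFDerivAt f (wlin a b) z

theorem HasW.of_hasDerivAt {f : ℂ → ℂ} {a z : ℂ} (h : HasDerivAt f a z) : HasW f a 0 z := by
  refine h.complexToReal_fderiv.congr_fderiv (ContinuousLinearMap.ext fun w => ?_)
  rw [wlin_apply]
  simp

theorem HasW.conj {f : ℂ → ℂ} {a b z : ℂ} (h : HasW f a b z) :
    HasW (fun w => conj (f w)) (conj b) (conj a) z := by
  refine ((conjCLE : ℂ →L[ℝ] ℂ).hasFDerivAt.comp z h).congr_fderiv
    (ContinuousLinearMap.ext fun w => ?_)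
  rw [wlin_apply]
  simp [wlin_apply]
  ring

theorem HasW.of_antiholo {f : ℂ → ℂ} {a z : ℂ} (h : HasDerivAt f a z) :
    HasW (fun w => conj (f w)) 0 (conj a) z := by
  simpa using (HasW.of_hasDerivAt h).conj

theorem HasW.comp_conj {f : ℂ → ℂ} {a z : ℂ} (h : HasDerivAt f a (conj z)) :
    HasW (fun w => f (conj w)) 0 a z := by
  refine (h.complexToReal_fderiv.comp z (conjCLE : ℂ →L[ℝ] ℂ).hasFDerivAt).congr_fderiv
    (ContinuousLinearMap.ext fun w => ?_)
  rw [wlin_apply]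
  simp

theorem HasW.const (c z : ℂ) : HasW (fun _ => c) 0 0 z := by
  refine (hasFDerivAt_const (𝕜 := ℝ) c z).congr_fderiv (ContinuousLinearMap.ext fun w => ?_)
  rw [wlin_apply]
  simp

theorem HasW.add {f g : ℂ → ℂ} {a b c d z : ℂ} (hf : HasW f a b z) (hg : HasW g c d z) :
    HasW (fun w => f w + g w) (a + c) (b + d) z := by
  refine (HasFDerivAt.add hf hg).congr_fderiv (ContinuousLinearMap.ext fun w => ?_)
  rw [wlin_apply]
  simp [wlin_apply]
  ring

theorem HasW.neg {f : ℂ → ℂ} {a b z : ℂ} (hf : HasW f a b z) :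
    HasW (fun w => -f w) (-a) (-b) z := by
  refine (HasFDerivAt.neg hf).congr_fderiv (ContinuousLinearMap.ext fun w => ?_)
  rw [wlin_apply]
  simp [wlin_apply]
  ring

theorem HasW.sub {f g : ℂ → ℂ} {a b c d z : ℂ} (hf : HasW f a b z) (hg : HasW g c d z) :
    HasW (fun w => f w - g w) (a - c) (b - d) z := by
  refine (HasFDerivAt.sub hf hg).congr_fderiv (ContinuousLinearMap.ext fun w => ?_)
  rw [wlin_apply]
  simp [wlin_apply]
  ring

theorem HasW.mul {f g : ℂ → ℂ} {a b c d z : ℂ} (hf : HasW f a b z) (hg : HasW g c d z) :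
    HasW (fun w => f w * g w) (a * g z + f z * c) (b * g z + f z * d) z := by
  refine (HasFDerivAt.mul hf hg).congr_fderiv (ContinuousLinearMap.ext fun w => ?_)
  rw [wlin_apply]
  simp [wlin_apply]
  ring

theorem HasW.const_mul {g : ℂ → ℂ} {c d z : ℂ} (k : ℂ) (hg : HasW g c d z) :
    HasW (fun w => k * g w) (k * c) (k * d) z := by
  simpa using (HasW.const k z).mul hg

theorem HasW.inv {f : ℂ → ℂ} {a b z : ℂ} (hf : HasW f a b z) (h0 : f z ≠ 0) :
    HasW (fun w => (f w)⁻¹) (-a / f z ^ 2) (-b / f z ^ 2) z := by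
  refine (((hasDerivAt_inv h0).complexToReal_fderiv).comp z hf).congr_fderiv
    (ContinuousLinearMap.ext fun w => ?_)
  rw [wlin_apply]
  simp [wlin_apply, div_eq_mul_inv]
  ring

theorem HasW.div {f g : ℂ → ℂ} {a b c d z : ℂ} (hf : HasW f a b z) (hg : HasW g c d z)
    (h0 : g z ≠ 0) :
    HasW (fun w => f w / g w) ((a * g z - f z * c) / g z ^ 2) ((b * g z - f z * d) / g z ^ 2)
      z := by
  have h1 := hf.mul (hg.inv h0)
  have e1 : (a * g z - f z * c) / g z ^ 2 = a * (g z)⁻¹ + f z * (-c / g z ^ 2) := by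
    field_simp
    ring
  have e2 : (b * g z - f z * d) / g z ^ 2 = b * (g z)⁻¹ + f z * (-d / g z ^ 2) := by
    field_simp
    ring
  rw [e1, e2]
  exact h1

theorem HasW.hasFDerivAt {f : ℂ → ℂ} {a b z : ℂ} (h : HasW f a b z) :
    HasFDerivAt f (wlin a b) z := h

theorem HasW.pu {f : ℂ → ℂ} {a b z : ℂ} (h : HasW f a b z) :
    Pool.Agent.Lib.MP_364e81_gt.pu f z = a + b := by
  unfold Pool.Agent.Lib.MP_364e81_gt.pu
  rw [h.hasFDerivAt.fderiv, wlin_apply]
  simp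

theorem HasW.pv {f : ℂ → ℂ} {a b z : ℂ} (h : HasW f a b z) :
    Pool.Agent.Lib.MP_364e81_gt.pv f z = I * (a - b) := by
  unfold Pool.Agent.Lib.MP_364e81_gt.pv
  rw [h.hasFDerivAt.fderiv, wlin_apply]
  simp
  ring

/-- Real parts. -/
theorem HasW.re_fderiv {f : ℂ → ℂ} {a b z : ℂ} (h : HasW f a b z) :
    HasFDerivAt (fun w => (f w).re) (reCLM.comp (wlin a b)) z :=
  reCLM.hasFDerivAt.comp z h

theorem HasW.pu_re {f : ℂ → ℂ} {a b z : ℂ} (h : HasW f a b z) :
    Pool.Agent.Lib.MP_364e81_gt.pu (fun w => (f w).re) z = (a + b).re := by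
  unfold Pool.Agent.Lib.MP_364e81_gt.pu
  rw [h.re_fderiv.fderiv]
  simp [wlin_apply]

theorem HasW.pv_re {f : ℂ → ℂ} {a b z : ℂ} (h : HasW f a b z) :
    Pool.Agent.Lib.MP_364e81_gt.pv (fun w => (f w).re) z = (I * (a - b)).re := by
  unfold Pool.Agent.Lib.MP_364e81_gt.pv
  rw [h.re_fderiv.fderiv]
  simp [wlin_apply]
  ring

/-- Vectors of real parts. -/
theorem vec_fderiv {F : Fin 4 → ℂ → ℂ} {a b : Fin 4 → ℂ} {z : ℂ}
    (h : ∀ j, HasW (F j) (a j) (b j) z) :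
    HasFDerivAt (fun w (j : Fin 4) => (F j w).re)
      (ContinuousLinearMap.pi fun j => reCLM.comp (wlin (a j) (b j))) z := by
  rw [hasFDerivAt_pi]
  exact fun j => (h j).re_fderiv

theorem pu_vec {F : Fin 4 → ℂ → ℂ} {a b : Fin 4 → ℂ} {z : ℂ} (h : ∀ j, HasW (F j) (a j) (b j) z) :
    Pool.Agent.Lib.MP_364e81_gt.pu (fun w j => (F j w).re) z = fun j => (a j + b j).re := by
  unfold Pool.Agent.Lib.MP_364e81_gt.pu
  rw [(vec_fderiv h).fderiv]
  ext j
  simp [wlin_apply]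

theorem pv_vec {F : Fin 4 → ℂ → ℂ} {a b : Fin 4 → ℂ} {z : ℂ} (h : ∀ j, HasW (F j) (a j) (b j) z) :
    Pool.Agent.Lib.MP_364e81_gt.pv (fun w j => (F j w).re) z =
      fun j => (I * (a j - b j)).re := by
  unfold Pool.Agent.Lib.MP_364e81_gt.pv
  rw [(vec_fderiv h).fderiv]
  ext j
  simp [wlin_apply]
  ring

end Pool.Agent.Lib.MP_364e81_gt
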